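import Pool.Agent.X62.BE.Bil

/-! The bilinear estimate for all integers. -/

set_option autoImplicit false

namespace Pool.Agent.X62.BE

open Finset Pool.Agent.H320R2.PD Pool.Agent.H499R2.ND Pool.Agent.H499R2.CO Pool.Agent.H376R2.MR
  Pool.Agent.W41.FU Pool.Agent.W41 Pool.Agent.W41.MU Pool.Agent.TH926.BL
open scoped Classical

/-- the part of the numbers with prime factors in the cells -/
theorem part_one {f : ℤ → ℝ} {w : ℕ → ℝ} (hw : ∀ a, |w a| ≤ 1) {P N r v0 v1 : ℕ} {η : ℝ} (hη : 0 ≤ η)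
    (hmm : ∀ v ∈ Ico v0 v1, 0 < mm 10 v)
    (hms : ∀ v ∈ Ico v0 v1, ∀ u : ℕ → ℝ, (∀ p ∈ cell 10 v, |u p| ≤ 1 / p) →
      ∀ q : ℕ, 1 ≤ q → (q : ℝ) ≤ 2 * P * r →
      ∑ b ∈ Icc 1 N, GS f u 10 v (q * b) ^ 2 ≤ η * (N * mm 10 v ^ 2)) (hr : 1 ≤ r) :
    ∑ b ∈ Icc 1 N, (∑ a ∈ Ioc P (2 * P), w a * f ((a * (r * b) : ℕ) : ℤ) * (#{p ∈ TT 10 v0 v1 | p ∣ a} : ℝ)) ^ 2 ≤
      η * N * (3 * P * ∑ v ∈ Ico v0 v1, mm 10 v) ^ 2 := by
  set A : ℕ → ℕ := fun v => ⌊2 * (P : ℝ) / Real.exp ((v : ℝ) / (10 : ℕ))⌋₊ with hA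
  set Q' : ℕ → ℝ := fun v => Real.exp (((v : ℝ) + 1) / (10 : ℕ)) with hQ'
  have hQ'0 : ∀ v, 0 < Q' v := fun v => Real.exp_pos _
  set u : ℕ → ℕ → ℕ → ℝ := fun v a p => (if p * a ∈ Ioc P (2 * P) then w (p * a) else 0) / Q' v with hu
  have hub : ∀ v a, ∀ p ∈ cell 10 v, |u v a p| ≤ 1 / p := by
    intro v a p hp
    have h3 := cell_lt hp
    have hp0 : (0 : ℝ) < p := by exact_mod_cast h3.1.pos
    have hpQ : (p : ℝ) ≤ Q' v := by
      rw [← Real.exp_log hp0]; exact Real.exp_le_exp.2 h3.2.2.le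
    simp only [hu]
    rw [abs_div, abs_of_pos (hQ'0 v)]
    have h4 : |if p * a ∈ Ioc P (2 * P) then w (p * a) else 0| ≤ 1 := by
      split_ifs
      · exact hw _
      · simp
    exact div_le_div₀ zero_le_one h4 hp0 hpQ
  have hdec : ∀ b, ∑ a ∈ Ioc P (2 * P), w a * f ((a * (r * b) : ℕ) : ℤ) * (#{p ∈ TT 10 v0 v1 | p ∣ a} : ℝ) =
      ∑ v ∈ Ico v0 v1, ∑ a ∈ Icc 1 (A v), Q' v * GS f (u v a) 10 v (a * (r * b)) := by
    intro b
    exact decomp f w P (r * b) v0 v1 A (fun v _ => Nat.lt_floor_add_one _)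
  set K : ℝ := ∑ v ∈ Ico v0 v1, ∑ _a ∈ Icc 1 (A v), Q' v * mm 10 v with hK
  have hK0 : 0 ≤ K := sum_nonneg fun v _ => sum_nonneg fun a _ => mul_nonneg (hQ'0 v).le (mm_nonneg _ _)
  have hexp : Real.exp (1 / 10) ≤ 3 / 2 := by
    have h := Real.exp_bound_div_one_sub_of_interval (x := 1 / 10) (by norm_num) (by norm_num)
    norm_num at h ⊢
    linarith
  have hKP : K ≤ 3 * P * ∑ v ∈ Ico v0 v1, mm 10 v := by
    rw [hK, mul_sum]
    apply sum_le_sum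
    intro v _
    rw [sum_const, Nat.card_Icc, Nat.add_sub_cancel, nsmul_eq_mul, ← mul_assoc]
    apply mul_le_mul_of_nonneg_right _ (mm_nonneg _ _)
    have hE := Real.exp_pos ((v : ℝ) / (10 : ℕ))
    have h1 : (A v : ℝ) ≤ 2 * P / Real.exp ((v : ℝ) / (10 : ℕ)) := Nat.floor_le (by positivity)
    have h2 : Q' v = Real.exp ((v : ℝ) / (10 : ℕ)) * Real.exp (1 / 10) := by
      simp only [hQ']
      rw [← Real.exp_add]
      congr 1
      push_cast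
      ring
    calc (A v : ℝ) * Q' v ≤ 2 * P / Real.exp ((v : ℝ) / (10 : ℕ)) * Q' v :=
          mul_le_mul_of_nonneg_right h1 (hQ'0 v).le
      _ = 2 * P * Real.exp (1 / 10) := by rw [h2]; field_simp
      _ ≤ 2 * P * (3 / 2) := mul_le_mul_of_nonneg_left hexp (by positivity)
      _ = 3 * P := by ring
  have hcs : ∀ b, (∑ v ∈ Ico v0 v1, ∑ a ∈ Icc 1 (A v), Q' v * GS f (u v a) 10 v (a * (r * b))) ^ 2 ≤
      K * ∑ v ∈ Ico v0 v1, ∑ a ∈ Icc 1 (A v), Q' v / mm 10 v * GS f (u v a) 10 v (a * (r * b)) ^ 2 := by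
    intro b
    rw [hK, sum_sigma', sum_sigma', sum_sigma']
    apply sum_sq_le_sum_mul_sum_of_sq_le_mul
    · intro x _
      exact mul_nonneg (hQ'0 _).le (mm_nonneg _ _)
    · intro x _
      exact mul_nonneg (div_nonneg (hQ'0 _).le (mm_nonneg _ _)) (sq_nonneg _)
    · intro x hx
      rw [mem_sigma] at hx
      have h1 := hmm x.1 hx.1
      apply le_of_eq
      field_simp
  calc ∑ b ∈ Icc 1 N, (∑ a ∈ Ioc P (2 * P), w a * f ((a * (r * b) : ℕ) : ℤ) * (#{p ∈ TT 10 v0 v1 | p ∣ a} : ℝ)) ^ 2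
      ≤ ∑ b ∈ Icc 1 N, K * ∑ v ∈ Ico v0 v1, ∑ a ∈ Icc 1 (A v),
          Q' v / mm 10 v * GS f (u v a) 10 v (a * (r * b)) ^ 2 := by
        apply sum_le_sum
        intro b _
        rw [hdec]
        exact hcs b
    _ = K * ∑ v ∈ Ico v0 v1, ∑ a ∈ Icc 1 (A v), Q' v / mm 10 v *
          ∑ b ∈ Icc 1 N, GS f (u v a) 10 v (a * (r * b)) ^ 2 := by
        rw [← mul_sum, sum_comm]
        congr 1
        apply sum_congr rfl
        intro v _
        rw [sum_comm]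
        apply sum_congr rfl
        intro a _
        rw [mul_sum]
    _ ≤ K * ∑ v ∈ Ico v0 v1, ∑ a ∈ Icc 1 (A v), Q' v / mm 10 v * (η * (N * mm 10 v ^ 2)) := by
        apply mul_le_mul_of_nonneg_left _ hK0
        apply sum_le_sum
        intro v hv
        apply sum_le_sum
        intro a ha
        apply mul_le_mul_of_nonneg_left _ (div_nonneg (hQ'0 v).le (mm_nonneg _ _))
        rw [mem_Icc] at ha
        have h1 := hms v hv (u v a) (hub v a) (a * r) (Nat.mul_pos ha.1 hr) (by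
          push_cast
          apply mul_le_mul_of_nonneg_right _ (Nat.cast_nonneg _)
          have h2 : (a : ℝ) ≤ A v := by exact_mod_cast ha.2
          have h3 : (A v : ℝ) ≤ 2 * P / Real.exp ((v : ℝ) / (10 : ℕ)) := Nat.floor_le (by positivity)
          have h4 : 2 * (P : ℝ) / Real.exp ((v : ℝ) / (10 : ℕ)) ≤ 2 * P :=
            div_le_self (by positivity) (Real.one_le_exp (by positivity))
          linarith)
        refine le_trans (le_of_eq ?_) h1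
        apply sum_congr rfl
        intro b _
        rw [mul_assoc]
    _ = η * N * K ^ 2 := by
        have : ∑ v ∈ Ico v0 v1, ∑ _a ∈ Icc 1 (A v), Q' v / mm 10 v * (η * (N * mm 10 v ^ 2)) = η * N * K := by
          rw [hK, mul_sum]
          apply sum_congr rfl
          intro v hv
          rw [mul_sum]
          apply sum_congr rfl
          intro a _
          have h1 := hmm v hv
          field_simp
        rw [this]; ring
    _ ≤ η * N * (3 * P * ∑ v ∈ Ico v0 v1, mm 10 v) ^ 2 := by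
        apply mul_le_mul_of_nonneg_left _ (by positivity)
        exact pow_le_pow_left₀ hK0 hKP 2

/-- MEAN SQUARES of the sums over `(P, 2 P]`. -/
theorem bil2 {s : ℤ} (hs : s = 1 ∨ s = -1) {ε : ℝ} (hε : 0 < ε) (hε1 : ε ≤ 1) :
    ∃ ϑ : ℝ, 0 < ϑ ∧ ϑ ≤ 1 / 64 ∧ ∀ α : ℝ, 0 < α → ∃ N0 : ℕ, 2 ≤ N0 ∧
    ∀ N : ℕ, N0 ≤ N → ∀ S : Set ℤ, Inv 1 S → ∀ δ : ℝ, HD s S δ →
    ∀ P : ℕ, (N : ℝ) ^ α ≤ P → (P : ℝ) ≤ (N : ℝ) ^ ϑ →
    ∀ r : ℕ, 1 ≤ r → (r : ℝ) ≤ (N : ℝ) ^ ϑ →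
    ∀ w : ℕ → ℝ, (∀ a, |w a| ≤ 1) →
    ∑ b ∈ Icc 1 N, (∑ a ∈ Ioc P (2 * P), w a * bal s S δ ((a * (r * b) : ℕ) : ℤ)) ^ 2 ≤ ε * (P ^ 2 * N) := by
  obtain ⟨ϑ0, h0, h01, hms⟩ := ms_dil hs (show 0 < ε / 36 by positivity) (by linarith) (H := 10) le_rfl
  obtain ⟨w0, hw01, hmml⟩ := mm_lower (H := 10) (by norm_num)
  set β : ℝ := Real.exp (-(16 / ε)) / 10 with hβ
  have hβ0 : 0 < β := by positivity
  have hβe : 1 / (10 * β) = Real.exp (16 / ε) := by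
    rw [hβ, Real.exp_neg]; field_simp
  have he16 : 0 < 16 / ε := by positivity
  refine ⟨ϑ0 / 3, by positivity, by linarith, fun α hα => ?_⟩
  obtain ⟨N1, hN12, hms⟩ := hms (β * α) (by positivity)
  have tl := Real.tendsto_log_atTop
  have ev : ∀ᶠ x : ℝ in Filter.atTop, (2 ≤ x ∧ (w0 : ℝ) ≤ 10 * β * (α * Real.log x)) ∧
      (1 ≤ 10 * β * (α * Real.log x) ∧ 2 ≤ α * Real.log x) ∧ (16 ≤ x ^ α ∧ 2 ≤ x ^ (ϑ0 / 3)) :=
    ((Filter.eventually_ge_atTop _).and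
      (((tl.const_mul_atTop hα).const_mul_atTop (show 0 < 10 * β by positivity)).eventually_ge_atTop _)).and
    (((((tl.const_mul_atTop hα).const_mul_atTop (show 0 < 10 * β by positivity)).eventually_ge_atTop _).and
      ((tl.const_mul_atTop hα).eventually_ge_atTop _)).and
      (((tendsto_rpow_atTop hα).eventually_ge_atTop _).and
      ((tendsto_rpow_atTop (show 0 < ϑ0 / 3 by positivity)).eventually_ge_atTop _)))
  obtain ⟨N2, hN2⟩ := Filter.eventually_atTop.1 (tendsto_natCast_atTop_atTop (R := ℝ) |>.eventually ev)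
  refine ⟨max N1 N2, le_trans hN12 (le_max_left _ _), fun N hN S hS δ hδ P hP1 hP2 r hr hr2 w hw => ?_⟩
  obtain ⟨⟨z1, z2⟩, ⟨z3, z4⟩, z5, z6⟩ := hN2 N (le_trans (le_max_right _ _) hN)
  have hN1' := le_trans (le_max_left _ _) hN
  have hNp : (0 : ℝ) < N := by linarith
  have hN1r : (1 : ℝ) ≤ N := by linarith
  have hlogN : 0 < Real.log N := Real.log_pos (by linarith)
  have hP16 : (16 : ℝ) ≤ P := z5.trans hP1
  have hPp : (0 : ℝ) < P := by linarith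
  set L := Real.log P with hL
  have hL1 : α * Real.log N ≤ L := by
    rw [hL, ← Real.log_rpow hNp]; exact Real.log_le_log (by positivity) hP1
  have hL2 : L ≤ ϑ0 / 3 * Real.log N := by
    rw [hL, ← Real.log_rpow hNp]; exact Real.log_le_log hPp hP2
  have hL3 : 2 ≤ L := z4.trans hL1
  have hβL : 10 * β * (α * Real.log N) ≤ 10 * β * L := mul_le_mul_of_nonneg_left hL1 (by positivity)
  set v0 := ⌈10 * β * L⌉₊ with hv0
  set v1 := ⌊10 * L / 4⌋₊ with hv1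
  have a1 : 10 * β * L ≤ v0 := Nat.le_ceil _
  have a2 : (v0 : ℝ) < 10 * β * L + 1 := Nat.ceil_lt_add_one (by positivity)
  have a3 : (v1 : ℝ) ≤ 10 * L / 4 := Nat.floor_le (by positivity)
  have a4 : 10 * L / 4 < v1 + 1 := Nat.lt_floor_add_one _
  have b1 : w0 ≤ v0 := by
    have : (w0 : ℝ) ≤ v0 := by linarith
    exact_mod_cast this
  have b0 : 1 ≤ v0 := hw01.trans b1
  have hv0p : (0 : ℝ) < v0 := by exact_mod_cast b0
  have b2 : (v0 : ℝ) ≤ 20 * β * L := by nlinarith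
  have b3 : 2 * L ≤ v1 := by linarith
  have b4 : Real.exp (16 / ε) ≤ (v1 : ℝ) / v0 := by
    rw [← hβe, le_div_iff₀ hv0p]
    calc 1 / (10 * β) * v0 ≤ 1 / (10 * β) * (20 * β * L) := mul_le_mul_of_nonneg_left b2 (by positivity)
      _ = 2 * L := by field_simp; ring
      _ ≤ v1 := b3
  have b5 : v0 ≤ v1 := by
    have h1 : 1 ≤ (v1 : ℝ) / v0 := (Real.one_le_exp he16.le).trans b4
    rw [le_div_iff₀ hv0p, one_mul] at h1
    exact_mod_cast h1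
  set Λ : ℝ := ∑ v ∈ Ico v0 v1, mm 10 v with hΛ
  have hmmv : ∀ v ∈ Ico v0 v1, 1 / 2 * (1 / (v : ℝ)) ≤ mm 10 v := by
    intro v hv
    rw [mem_Ico] at hv
    have h1 := (hmml v (b1.trans hv.1)).1
    have h2 : (0 : ℝ) < v := by exact_mod_cast (b0.trans hv.1)
    rw [show 1 / 2 * (1 / (v : ℝ)) = (1 / 2) / v by ring, div_le_iff₀ h2]
    linarith
  have hmmp : ∀ v ∈ Ico v0 v1, 0 < mm 10 v := by
    intro v hv
    refine lt_of_lt_of_le ?_ (hmmv v hv)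
    have h2 : (0 : ℝ) < v := by exact_mod_cast (b0.trans (mem_Ico.1 hv).1)
    positivity
  have hΛ8 : 8 / ε ≤ Λ := by
    have h1 := harm_lower b0 (v1 - v0)
    rw [Nat.add_sub_cancel' b5] at h1
    have h2 : 16 / ε ≤ Real.log ((v1 : ℕ) / v0) := by
      have := Real.log_le_log (Real.exp_pos _) b4
      rwa [Real.log_exp] at this
    have h3 : 1 / 2 * ∑ v ∈ Ico v0 v1, 1 / (v : ℝ) ≤ Λ := by
      rw [hΛ, mul_sum]; exact sum_le_sum hmmv
    have e : 8 / ε = 1 / 2 * (16 / ε) := by ring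
    rw [e]
    linarith
  have hΛ1 : 8 ≤ Λ := by
    refine le_trans ?_ hΛ8
    rw [le_div_iff₀ hε]; nlinarith
  have hεΛ : 8 ≤ ε * Λ := by
    rw [div_le_iff₀ hε] at hΛ8; linarith
  -- the primes
  have hTp : ∀ p ∈ TT 10 v0 v1, p.Prime := by
    intro p hp
    unfold TT at hp
    rw [mem_biUnion] at hp
    obtain ⟨v, _, hp⟩ := hp
    exact (cell_lt hp).1
  have hTs : ∑ p ∈ TT 10 v0 v1, 1 / (p : ℝ) = Λ := by
    rw [TT_sum 10 v0 v1 (by norm_num)]; rfl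
  have hTc : 4 * #(TT 10 v0 v1) ^ 2 ≤ P := by
    have h1 := TT_card 10 v0 v1 (by norm_num)
    have h2 : Real.exp ((v1 : ℝ) / (10 : ℕ)) ≤ Real.exp (L / 4) := by
      apply Real.exp_le_exp.2
      push_cast
      linarith
    have h3 : Real.exp (L / 4) ^ 4 = P := by
      rw [← Real.exp_nat_mul]
      have : ((4 : ℕ) : ℝ) * (L / 4) = L := by push_cast; ring
      rw [this, hL, Real.exp_log hPp]
    set E := Real.exp (L / 4) with hE
    have hE0 : 0 < E := Real.exp_pos _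
    have h4 : 4 ≤ E ^ 2 := by
      by_contra hc
      push Not at hc
      have : E ^ 4 < 16 := by
        have e : E ^ 4 = E ^ 2 * E ^ 2 := by ring
        rw [e]; nlinarith [sq_nonneg E]
      linarith
    have h5 : (#(TT 10 v0 v1) : ℝ) ^ 2 ≤ E ^ 2 := pow_le_pow_left₀ (Nat.cast_nonneg _) (h1.trans h2) 2
    have h6 : 4 * (#(TT 10 v0 v1) : ℝ) ^ 2 ≤ P := by
      rw [← h3]
      have e : E ^ 4 = E ^ 2 * E ^ 2 := by ring
      rw [e]; nlinarith [sq_nonneg E]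
    exact_mod_cast h6
  have htk := tk P (TT 10 v0 v1) hTp hTc
  rw [hTs] at htk
  obtain ⟨d0, d1⟩ := HD_mem hs hδ
  have hfa := (bal_same hs hS d0 d1).1
  have hN13 : 2 * (P : ℝ) * r ≤ (N : ℝ) ^ ϑ0 := by
    have e : (N : ℝ) ^ ϑ0 = (N : ℝ) ^ (ϑ0 / 3) * (N : ℝ) ^ (ϑ0 / 3) * (N : ℝ) ^ (ϑ0 / 3) := by
      rw [← Real.rpow_add hNp, ← Real.rpow_add hNp]; congr 1; ring
    rw [e]
    apply mul_le_mul _ hr2 (Nat.cast_nonneg _) (by positivity)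
    exact mul_le_mul z6 hP2 hPp.le (by positivity)
  have hone := part_one (f := bal s S δ) hw (P := P) (N := N) (r := r) (v0 := v0) (v1 := v1)
    (show 0 ≤ ε / 36 by positivity) hmmp (fun v hv u hu q hq1 hq2 => by
      have hv' := mem_Ico.1 hv
      apply hms N hN1' S hS δ hδ v _ _ u hu q hq1 (hq2.trans hN13)
      · have h1 : (v0 : ℝ) ≤ v := by exact_mod_cast hv'.1
        push_cast
        rw [le_div_iff₀ (by norm_num)]
        linarith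
      · have h1 : (v : ℝ) + 1 ≤ v1 := by exact_mod_cast hv'.2
        push_cast
        rw [div_le_iff₀ (by norm_num)]
        nlinarith [mul_pos h0 hlogN]) hr
  rw [← hΛ] at hone
  -- the two parts
  have hkey : ∀ b, Λ ^ 2 * (∑ a ∈ Ioc P (2 * P), w a * bal s S δ ((a * (r * b) : ℕ) : ℤ)) ^ 2 ≤
      2 * (∑ a ∈ Ioc P (2 * P), w a * bal s S δ ((a * (r * b) : ℕ) : ℤ) * (#{p ∈ TT 10 v0 v1 | p ∣ a} : ℝ)) ^ 2 +
      2 * (P * (P * (Λ + 1))) := by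
    intro b
    set E1 := ∑ a ∈ Ioc P (2 * P), w a * bal s S δ ((a * (r * b) : ℕ) : ℤ) * (#{p ∈ TT 10 v0 v1 | p ∣ a} : ℝ) with hE1
    set G := ∑ a ∈ Ioc P (2 * P), w a * bal s S δ ((a * (r * b) : ℕ) : ℤ) with hG
    set E2 := ∑ a ∈ Ioc P (2 * P), w a * bal s S δ ((a * (r * b) : ℕ) : ℤ) * (Λ - #{p ∈ TT 10 v0 v1 | p ∣ a}) with hE2
    have h1 : Λ * G = E1 + E2 := by
      rw [hG, hE1, hE2, mul_sum, ← sum_add_distrib]
      apply sum_congr rfl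
      intro a _
      ring
    have h2 : E2 ^ 2 ≤ P * (P * (Λ + 1)) := by
      have h3 : |E2| ≤ ∑ a ∈ Ioc P (2 * P), |(#{p ∈ TT 10 v0 v1 | p ∣ a} : ℝ) - Λ| := by
        rw [hE2]
        refine (abs_sum_le_sum_abs _ _).trans (sum_le_sum fun a _ => ?_)
        rw [abs_mul, abs_mul, abs_sub_comm Λ]
        exact mul_le_of_le_one_left (abs_nonneg _) (mul_le_one₀ (hw a) (abs_nonneg _) (hfa _))
      rw [← sq_abs]
      refine (pow_le_pow_left₀ (abs_nonneg _) h3 2).trans ?_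
      refine (sq_sum_le_card_mul_sum_sq).trans ?_
      rw [Nat.card_Ioc]
      have e : ((2 * P - P : ℕ) : ℝ) = P := by
        have : 2 * P - P = P := by omega
        rw [this]
      rw [e]
      apply mul_le_mul_of_nonneg_left _ hPp.le
      simp only [sq_abs]
      exact htk
    have h3 : Λ ^ 2 * G ^ 2 = (E1 + E2) ^ 2 := by rw [← h1]; ring
    rw [h3]
    nlinarith [sq_nonneg (E1 - E2)]
  have hsum : Λ ^ 2 * ∑ b ∈ Icc 1 N, (∑ a ∈ Ioc P (2 * P), w a * bal s S δ ((a * (r * b) : ℕ) : ℤ)) ^ 2 ≤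
      2 * (ε / 36 * N * (3 * P * Λ) ^ 2) + N * (2 * (P * (P * (Λ + 1)))) := by
    rw [mul_sum]
    refine (sum_le_sum fun b _ => hkey b).trans ?_
    rw [sum_add_distrib, ← mul_sum, sum_const, Nat.card_Icc, Nat.add_sub_cancel, nsmul_eq_mul]
    linarith
  have hfin : 2 * (ε / 36 * N * (3 * P * Λ) ^ 2) + N * (2 * (P * (P * (Λ + 1)))) ≤ Λ ^ 2 * (ε * ((P : ℝ) ^ 2 * N)) := by
    have e1 : 2 * (ε / 36 * N * (3 * P * Λ) ^ 2) = ε / 2 * (Λ ^ 2 * ((P : ℝ) ^ 2 * N)) := by ring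
    have e2 : (N : ℝ) * (2 * (P * (P * (Λ + 1)))) = 2 * (Λ + 1) * ((P : ℝ) ^ 2 * N) := by ring
    rw [e1, e2]
    have h1 : 2 * (Λ + 1) ≤ ε / 2 * Λ ^ 2 := by nlinarith
    have h2 := mul_le_mul_of_nonneg_right h1 (show 0 ≤ (P : ℝ) ^ 2 * N by positivity)
    linarith
  exact le_of_mul_le_mul_left (hsum.trans hfin) (by positivity)

/-- THE BILINEAR ESTIMATE. -/
theorem bil {s : ℤ} (hs : s = 1 ∨ s = -1) {ε : ℝ} (hε : 0 < ε) (hε1 : ε ≤ 1) :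
    ∃ ϑ : ℝ, 0 < ϑ ∧ ϑ ≤ 1 / 64 ∧ ∀ α : ℝ, 0 < α → ∃ N0 : ℕ, 2 ≤ N0 ∧
    ∀ N : ℕ, N0 ≤ N → ∀ S : Set ℤ, Inv 1 S → ∀ δ : ℝ, HD s S δ →
    ∀ P : ℕ, (N : ℝ) ^ α ≤ P → (P : ℝ) ≤ (N : ℝ) ^ ϑ →
    ∀ r : ℕ, 1 ≤ r → (r : ℝ) ≤ (N : ℝ) ^ ϑ →
    ∀ u v : ℕ → ℝ, (∀ a, |u a| ≤ 1) → (∀ b, |v b| ≤ 1) →
    |∑ a ∈ Ioc P (2 * P), ∑ b ∈ Icc 1 N, u a * v b * bal s S δ ((a * (r * b) : ℕ) : ℤ)| ≤ ε * (P * N) := by
  obtain ⟨ϑ, h0, h1, H⟩ := bil2 hs (show 0 < ε ^ 2 by positivity) (pow_le_one₀ hε.le hε1)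
  refine ⟨ϑ, h0, h1, fun α hα => ?_⟩
  obtain ⟨N0, hN0, H⟩ := H α hα
  refine ⟨N0, hN0, fun N hN S hS δ hδ P hP1 hP2 r hr hr2 u v hu hv => ?_⟩
  have h2 := H N hN S hS δ hδ P hP1 hP2 r hr hr2 u hu
  rw [sum_comm]
  have e : ∑ b ∈ Icc 1 N, ∑ a ∈ Ioc P (2 * P), u a * v b * bal s S δ ((a * (r * b) : ℕ) : ℤ) =
      ∑ b ∈ Icc 1 N, v b * ∑ a ∈ Ioc P (2 * P), u a * bal s S δ ((a * (r * b) : ℕ) : ℤ) := by
    apply sum_congr rfl
    intro b _
    rw [mul_sum]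
    apply sum_congr rfl
    intro a _
    ring
  rw [e]
  have h3 : |∑ b ∈ Icc 1 N, v b * ∑ a ∈ Ioc P (2 * P), u a * bal s S δ ((a * (r * b) : ℕ) : ℤ)| ≤
      ∑ b ∈ Icc 1 N, |∑ a ∈ Ioc P (2 * P), u a * bal s S δ ((a * (r * b) : ℕ) : ℤ)| := by
    refine (abs_sum_le_sum_abs _ _).trans (sum_le_sum fun b _ => ?_)
    rw [abs_mul]
    exact mul_le_of_le_one_left (abs_nonneg _) (hv b)
  refine h3.trans ?_
  apply le_of_sq_le_sq _ (by positivity)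
  refine (sq_sum_le_card_mul_sum_sq).trans ?_
  rw [Nat.card_Icc, Nat.add_sub_cancel]
  simp only [sq_abs]
  calc (N : ℝ) * _ ≤ N * (ε ^ 2 * (P ^ 2 * N)) := mul_le_mul_of_nonneg_left h2 (Nat.cast_nonneg _)
    _ = (ε * (P * N)) ^ 2 := by ring

end Pool.Agent.X62.BE
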