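import Mathlib
import Pool.Agent.TH926.BL.Pat

/-! Counting lemma for graphs: patterns `K e (x i) (x j)` for the edges `e = (i, j)`. -/

set_option autoImplicit false

namespace Pool.Agent.X62.BE

open Finset
open scoped Classical

/-- products of numbers of absolute value at most `1` -/
theorem abs_prod_le {ι : Type*} (s : Finset ι) (f : ι → ℝ) (h : ∀ i ∈ s, |f i| ≤ 1) : |∏ i ∈ s, f i| ≤ 1 := by
  rw [abs_prod]
  exact prod_le_one (fun _ _ => abs_nonneg _) h

/-- the bilinear hypothesis for one edge, applied to the tuples -/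
theorem one_edge {k : ℕ} (R : Fin k → Finset ℕ) {i j : Fin k} (hij : i ≠ j) (hRi : (R i).Nonempty)
    (hRj : (R j).Nonempty) {ε : ℝ} (D : ℕ → ℕ → ℝ)
    (hD : ∀ u v : ℕ → ℝ, (∀ a, |u a| ≤ 1) → (∀ b, |v b| ≤ 1) →
      |∑ a ∈ R i, ∑ b ∈ R j, u a * v b * D a b| ≤ ε * (#(R i) * #(R j)))
    (E : Finset (Fin k × Fin k)) (hE : ∀ e ∈ E, ¬ (e.1 = i ∧ e.2 = j) ∧ ¬ (e.1 = j ∧ e.2 = i))
    (K : Fin k × Fin k → ℕ → ℕ → ℝ) (hK : ∀ e a b, |K e a b| ≤ 1)
    (g : Fin k → ℕ → ℝ) (hg : ∀ l a, |g l a| ≤ 1) :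
    |∑ x ∈ Fintype.piFinset R, D (x i) (x j) * ((∏ e ∈ E, K e (x e.1) (x e.2)) * ∏ l, g l (x l))| ≤
      ε * ∏ l, (#(R l) : ℝ) := by
  set G : (Fin k → ℕ) → ℝ := fun x => D (x i) (x j) * ((∏ e ∈ E, K e (x e.1) (x e.2)) * ∏ l, g l (x l)) with hG
  have r1 := Pool.Agent.TH926.BL.resample R j G
  have r2 := Pool.Agent.TH926.BL.resample R i (fun x => ∑ p ∈ R j, G (Function.update x j p))
  have hi0 : (0 : ℝ) < #(R i) := by exact_mod_cast card_pos.2 hRi
  have hj0 : (0 : ℝ) < #(R j) := by exact_mod_cast card_pos.2 hRj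
  have hcard : ((#(Fintype.piFinset R) : ℕ) : ℝ) = ∏ l, (#(R l) : ℝ) := by
    rw [Fintype.card_piFinset]; push_cast; rfl
  -- for fixed other coordinates
  have key : ∀ x ∈ Fintype.piFinset R,
      |∑ a ∈ R i, ∑ b ∈ R j, G (Function.update (Function.update x i a) j b)| ≤ ε * (#(R i) * #(R j)) := by
    intro x _
    set u : ℕ → ℝ := fun a =>
      (∏ e ∈ E.filter (fun e => e.1 = i ∨ e.2 = i), K e (Function.update x i a e.1) (Function.update x i a e.2)) *
        g i a with hu
    set v : ℕ → ℝ := fun b =>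
      (∏ e ∈ E.filter (fun e => ¬ (e.1 = i ∨ e.2 = i)),
        K e (Function.update x j b e.1) (Function.update x j b e.2)) *
        ∏ l ∈ univ.erase i, g l (Function.update x j b l) with hv
    have hu1 : ∀ a, |u a| ≤ 1 := fun a => by
      simp only [hu]
      rw [abs_mul]
      exact mul_le_one₀ (abs_prod_le _ _ fun e _ => hK _ _ _) (abs_nonneg _) (hg _ _)
    have hv1 : ∀ b, |v b| ≤ 1 := fun b => by
      simp only [hv]
      rw [abs_mul]
      exact mul_le_one₀ (abs_prod_le _ _ fun e _ => hK _ _ _) (abs_nonneg _) (abs_prod_le _ _ fun e _ => hg _ _)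
    refine le_trans (le_of_eq ?_) (hD u v hu1 hv1)
    congr 1
    apply sum_congr rfl
    intro a _
    apply sum_congr rfl
    intro b _
    have ei : Function.update (Function.update x i a) j b i = a := by
      rw [Function.update_of_ne hij, Function.update_self]
    have ej : Function.update (Function.update x i a) j b j = b := Function.update_self ..
    simp only [hG]
    rw [ei, ej]
    have e1 : ∏ e ∈ E, K e (Function.update (Function.update x i a) j b e.1)
        (Function.update (Function.update x i a) j b e.2) =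
        (∏ e ∈ E.filter (fun e => e.1 = i ∨ e.2 = i), K e (Function.update x i a e.1) (Function.update x i a e.2)) *
        ∏ e ∈ E.filter (fun e => ¬ (e.1 = i ∨ e.2 = i)),
          K e (Function.update x j b e.1) (Function.update x j b e.2) := by
      rw [← prod_filter_mul_prod_filter_not E (fun e => e.1 = i ∨ e.2 = i)]
      congr 1
      · apply prod_congr rfl
        intro e he
        rw [mem_filter] at he
        obtain ⟨h1, h2⟩ := hE e he.1
        have c1 : e.1 ≠ j := by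
          rintro h
          rcases he.2 with h3 | h3
          · exact hij (h3 ▸ h)
          · exact h2 ⟨h, h3⟩
        have c2 : e.2 ≠ j := by
          rintro h
          rcases he.2 with h3 | h3
          · exact h1 ⟨h3, h⟩
          · exact hij (h3 ▸ h)
        rw [Function.update_of_ne c1, Function.update_of_ne c2]
      · apply prod_congr rfl
        intro e he
        rw [mem_filter, not_or] at he
        have c : ∀ l, l ≠ i → Function.update (Function.update x i a) j b l = Function.update x j b l := by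
          intro l hl
          by_cases h : l = j
          · subst h; rw [Function.update_self, Function.update_self]
          · rw [Function.update_of_ne h, Function.update_of_ne h, Function.update_of_ne hl]
        rw [c _ he.2.1, c _ he.2.2]
    have e2 : ∏ l, g l (Function.update (Function.update x i a) j b l) =
        g i a * ∏ l ∈ univ.erase i, g l (Function.update x j b l) := by
      rw [← mul_prod_erase univ _ (mem_univ i), ei]
      congr 1
      apply prod_congr rfl
      intro l hl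
      have hl' := (mem_erase.1 hl).1
      by_cases h : l = j
      · subst h; rw [Function.update_self, Function.update_self]
      · rw [Function.update_of_ne h, Function.update_of_ne h, Function.update_of_ne hl']
    rw [e1, e2]
    simp only [hu, hv]
    ring
  have tot : (#(R i) : ℝ) * (#(R j) * ∑ x ∈ Fintype.piFinset R, G x) =
      ∑ x ∈ Fintype.piFinset R, ∑ a ∈ R i, ∑ b ∈ R j, G (Function.update (Function.update x i a) j b) := by
    rw [← r1, ← r2]
  have h1 : |(#(R i) : ℝ) * (#(R j) * ∑ x ∈ Fintype.piFinset R, G x)| ≤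
      (∏ l, (#(R l) : ℝ)) * (ε * (#(R i) * #(R j))) := by
    rw [tot]
    refine (abs_sum_le_sum_abs _ _).trans ((sum_le_sum key).trans ?_)
    rw [sum_const, nsmul_eq_mul, hcard]
  rw [abs_mul, abs_mul, abs_of_pos hi0, abs_of_pos hj0] at h1
  have h2 : (#(R i) : ℝ) * #(R j) * |∑ x ∈ Fintype.piFinset R, G x| ≤
      (#(R i) : ℝ) * #(R j) * (ε * ∏ l, (#(R l) : ℝ)) := by
    calc (#(R i) : ℝ) * #(R j) * |∑ x ∈ Fintype.piFinset R, G x|
        = #(R i) * (#(R j) * |∑ x ∈ Fintype.piFinset R, G x|) := by ring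
      _ ≤ _ := h1
      _ = _ := by ring
  exact le_of_mul_le_mul_left h2 (by positivity)

/-- the counting lemma for graphs -/
theorem edges {k : ℕ} (R : Fin k → Finset ℕ) (hR : ∀ i, (R i).Nonempty) {ε : ℝ}
    (K : Fin k × Fin k → ℕ → ℕ → ℝ) (hK : ∀ e a b, |K e a b| ≤ 1)
    (δ : Fin k × Fin k → ℝ) (hδ : ∀ e, |δ e| ≤ 1) (E : Finset (Fin k × Fin k)) (hE : ∀ e ∈ E, e.1 < e.2)
    (hB : ∀ e ∈ E, ∀ u v : ℕ → ℝ, (∀ a, |u a| ≤ 1) → (∀ b, |v b| ≤ 1) →
      |∑ a ∈ R e.1, ∑ b ∈ R e.2, u a * v b * (K e a b - δ e)| ≤ ε * (#(R e.1) * #(R e.2)))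
    (g : Fin k → ℕ → ℝ) (hg : ∀ l a, |g l a| ≤ 1) :
    |∑ x ∈ Fintype.piFinset R, (∏ e ∈ E, K e (x e.1) (x e.2)) * ∏ l, g l (x l) -
      (∏ e ∈ E, δ e) * ∑ x ∈ Fintype.piFinset R, ∏ l, g l (x l)| ≤ #E * (ε * ∏ l, (#(R l) : ℝ)) := by
  induction E using Finset.induction_on with
  | empty => simp
  | insert e0 E he0 ih =>
    have ih' := ih (fun e he => hE e (mem_insert_of_mem he)) (fun e he => hB e (mem_insert_of_mem he))
    have hlt := hE e0 (mem_insert_self _ _)
    have h2 := one_edge R (i := e0.1) (j := e0.2) (ne_of_lt hlt) (hR _) (hR _) (ε := ε)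
      (fun a b => K e0 a b - δ e0) (hB e0 (mem_insert_self _ _)) E (fun e he => by
        constructor
        · rintro ⟨h1, h2⟩
          exact he0 ((Prod.ext h1 h2 : e = e0) ▸ he)
        · rintro ⟨h1, h2⟩
          have := hE e (mem_insert_of_mem he)
          rw [h1, h2] at this
          exact absurd this (not_lt_of_gt hlt)) K hK g hg
    have e1 : ∑ x ∈ Fintype.piFinset R, (∏ e ∈ insert e0 E, K e (x e.1) (x e.2)) * ∏ l, g l (x l) -
        (∏ e ∈ insert e0 E, δ e) * ∑ x ∈ Fintype.piFinset R, ∏ l, g l (x l) =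
        δ e0 * (∑ x ∈ Fintype.piFinset R, (∏ e ∈ E, K e (x e.1) (x e.2)) * ∏ l, g l (x l) -
          (∏ e ∈ E, δ e) * ∑ x ∈ Fintype.piFinset R, ∏ l, g l (x l)) +
        ∑ x ∈ Fintype.piFinset R, (K e0 (x e0.1) (x e0.2) - δ e0) *
          ((∏ e ∈ E, K e (x e.1) (x e.2)) * ∏ l, g l (x l)) := by
      have : ∑ x ∈ Fintype.piFinset R, (∏ e ∈ insert e0 E, K e (x e.1) (x e.2)) * ∏ l, g l (x l) =
          ∑ x ∈ Fintype.piFinset R, δ e0 * ((∏ e ∈ E, K e (x e.1) (x e.2)) * ∏ l, g l (x l)) +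
          ∑ x ∈ Fintype.piFinset R, (K e0 (x e0.1) (x e0.2) - δ e0) *
            ((∏ e ∈ E, K e (x e.1) (x e.2)) * ∏ l, g l (x l)) := by
        rw [← sum_add_distrib]
        apply sum_congr rfl
        intro x _
        rw [prod_insert he0]
        ring
      rw [this, prod_insert he0, ← mul_sum]
      ring
    rw [e1]
    refine (abs_add_le _ _).trans ?_
    rw [abs_mul, card_insert_of_notMem he0]
    push_cast
    have h3 : |δ e0| * |∑ x ∈ Fintype.piFinset R, (∏ e ∈ E, K e (x e.1) (x e.2)) * ∏ l, g l (x l) -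
          (∏ e ∈ E, δ e) * ∑ x ∈ Fintype.piFinset R, ∏ l, g l (x l)| ≤ #E * (ε * ∏ l, (#(R l) : ℝ)) := by
      refine le_trans ?_ ih'
      exact mul_le_of_le_one_left (abs_nonneg _) (hδ _)
    calc _ ≤ #E * (ε * ∏ l, (#(R l) : ℝ)) + ε * ∏ l, (#(R l) : ℝ) := add_le_add h3 h2
      _ = _ := by ring

/-- products of nearly equal numbers -/
theorem prod_close {k : ℕ} (c : Fin k → ℝ) (hc : ∀ i, 0 ≤ c i) (a δ : Fin k → ℝ) {ε : ℝ} (hε : 0 ≤ ε)
    (ha : ∀ i, |a i| ≤ c i) (hδ : ∀ i, |δ i| ≤ 1) (h : ∀ i, |a i - δ i * c i| ≤ ε * c i) :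
    |∏ i, a i - (∏ i, δ i) * ∏ i, c i| ≤ k * (ε * ∏ i, c i) := by
  have key : ∀ s : Finset (Fin k), |∏ i ∈ s, a i - (∏ i ∈ s, δ i) * ∏ i ∈ s, c i| ≤ #s * (ε * ∏ i ∈ s, c i) := by
    intro s
    induction s using Finset.induction_on with
    | empty => simp
    | insert j s hj ih =>
      rw [prod_insert hj, prod_insert hj, prod_insert hj, card_insert_of_notMem hj]
      push_cast
      have hP : 0 ≤ ∏ i ∈ s, c i := prod_nonneg fun i _ => hc i
      have hab : |∏ i ∈ s, a i| ≤ ∏ i ∈ s, c i := by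
        rw [abs_prod]; exact prod_le_prod (fun _ _ => abs_nonneg _) (fun i _ => ha i)
      have e : a j * ∏ i ∈ s, a i - δ j * (∏ i ∈ s, δ i) * (c j * ∏ i ∈ s, c i) =
          (a j - δ j * c j) * ∏ i ∈ s, a i + δ j * c j * (∏ i ∈ s, a i - (∏ i ∈ s, δ i) * ∏ i ∈ s, c i) := by
        ring
      rw [e]
      refine (abs_add_le _ _).trans ?_
      rw [abs_mul, abs_mul, abs_mul, abs_of_nonneg (hc j)]
      have h1 : |a j - δ j * c j| * |∏ i ∈ s, a i| ≤ ε * c j * ∏ i ∈ s, c i :=
        mul_le_mul (h j) hab (abs_nonneg _) (mul_nonneg hε (hc j))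
      have h2 : |δ j| * c j * |∏ i ∈ s, a i - (∏ i ∈ s, δ i) * ∏ i ∈ s, c i| ≤
          1 * c j * (#s * (ε * ∏ i ∈ s, c i)) :=
        mul_le_mul (mul_le_mul_of_nonneg_right (hδ j) (hc j)) ih (abs_nonneg _)
          (mul_nonneg zero_le_one (hc j))
      calc _ ≤ ε * c j * ∏ i ∈ s, c i + 1 * c j * (#s * (ε * ∏ i ∈ s, c i)) := add_le_add h1 h2
        _ = _ := by ring
  have := key univ
  rwa [card_univ, Fintype.card_fin] at this

end Pool.Agent.X62.BE
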