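import Pool.Agent.X62.BE.Dil
import Pool.Agent.X62.BE.Edge
import Pool.Agent.W41.Dens

/-! Trajectories of sums: the largest summand determines the class. -/

set_option autoImplicit false

namespace Pool.Agent.X62.BE

open Finset Pool.Agent.H320R2.PD Pool.Agent.H499R2.ND Pool.Agent.H499R2.CO Pool.Agent.H376R2.MR
  Pool.Agent.W41.FU Pool.Agent.W41 Pool.Agent.W41.MU Pool.Agent.TH926.BL
open scoped Classical

/-- almost all `n` merge with `n + r` -/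
theorem shift_merge {s : ℤ} (hs : s = 1 ∨ s = -1) {ε : ℝ} (hε : 0 < ε) (hε1 : ε ≤ 1) :
    ∃ ϑ : ℝ, 0 < ϑ ∧ ∃ N0 : ℕ, ∀ N : ℕ, N0 ≤ N → ∀ r : ℕ, (r : ℝ) ≤ (N : ℝ) ^ ϑ →
    (#{n ∈ Icc 1 N | ¬ ∃ t : ℕ, (Tz s)^[t] ((n : ℕ) : ℤ) = (Tz s)^[t] ((n : ℤ) + r)} : ℝ) ≤ ε * N := by
  have hsm : s % 2 = 1 := by rcases hs with rfl | rfl <;> norm_num
  have hss : s * s = 1 := by rcases hs with rfl | rfl <;> norm_num
  obtain ⟨θ, hθ, k0, hq⟩ := q_quant (show 0 < ε / 2 by positivity) (by linarith)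
  refine ⟨θ / 2, by positivity, 2 ^ (k0 + 2), fun N hN r hr => ?_⟩
  have hN4 : 4 ≤ N := by
    have : 2 ^ 2 ≤ 2 ^ (k0 + 2) := Nat.pow_le_pow_right (by norm_num) (by omega)
    omega
  have hNp : (0 : ℝ) < N := by exact_mod_cast (by omega : 0 < N)
  have hN1 : (1 : ℝ) ≤ N := by exact_mod_cast (by omega : 1 ≤ N)
  set k := Nat.log 2 N with hk
  have hN0 : N ≠ 0 := by omega
  have hk1 : 2 ^ k ≤ N := Nat.pow_log_le_self 2 hN0
  have hk2 : N < 2 ^ (k + 1) := Nat.lt_pow_succ_log_self (by norm_num) N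
  have hkk : k0 + 2 ≤ k := by
    rw [hk]; exact (Nat.le_log_iff_pow_le (by norm_num) hN0).2 hN
  have hrk : (r : ℝ) ≤ (2 : ℝ) ^ (θ * k) := by
    have h1 : (N : ℝ) ≤ (2 : ℝ) ^ (2 * (k : ℝ)) := by
      have h2 : N < 2 ^ (2 * k) := lt_of_lt_of_le hk2 (Nat.pow_le_pow_right (by norm_num) (by omega))
      have h3 : (N : ℝ) < ((2 ^ (2 * k) : ℕ) : ℝ) := by exact_mod_cast h2
      rw [show (2 * (k : ℝ)) = ((2 * k : ℕ) : ℝ) by push_cast; ring, Real.rpow_natCast]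
      push_cast at h3
      exact h3.le
    calc (r : ℝ) ≤ (N : ℝ) ^ (θ / 2) := hr
      _ ≤ ((2 : ℝ) ^ (2 * (k : ℝ))) ^ (θ / 2) := Real.rpow_le_rpow hNp.le h1 (by positivity)
      _ = (2 : ℝ) ^ (θ * k) := by rw [← Real.rpow_mul (by norm_num)]; congr 1; ring
  have hqk := hq k (by omega) (s * r) (by
    have : |((s * (r : ℤ) : ℤ) : ℝ)| = r := by
      rcases hs with rfl | rfl
      · push_cast; rw [one_mul, abs_of_nonneg (Nat.cast_nonneg _)]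
      · push_cast; rw [neg_one_mul, abs_neg, abs_of_nonneg (Nat.cast_nonneg _)]
    rw [this]; exact hrk)
  -- the count of the survivors
  have hper : ∀ n : ℕ, (if surv s k (0, s * (r : ℤ)) ((n + 2 ^ k : ℕ) : ℤ) then (1 : ℝ) else 0) =
      if surv s k (0, s * (r : ℤ)) ((n : ℕ) : ℤ) then (1 : ℝ) else 0 := by
    intro n
    have e : ((n + 2 ^ k : ℕ) : ℤ) = (n : ℤ) + 1 * 2 ^ k := by push_cast; ring
    rw [e]
    simp only [surv_periodic hsm]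
  have hcount := sum_periods (fun n : ℕ => if surv s k (0, s * (r : ℤ)) ((n : ℕ) : ℤ) then (1 : ℝ) else 0) hper 2
  have hcs := count_surv hsm k (0, s * (r : ℤ))
  have h1 : (#{n ∈ Icc 1 N | ¬ ∃ t : ℕ, (Tz s)^[t] ((n : ℕ) : ℤ) = (Tz s)^[t] ((n : ℤ) + r)} : ℝ) ≤
      ∑ n ∈ range (2 * 2 ^ k), if surv s k (0, s * (r : ℤ)) ((n : ℕ) : ℤ) then (1 : ℝ) else 0 := by
    have h2 : #{n ∈ Icc 1 N | ¬ ∃ t : ℕ, (Tz s)^[t] ((n : ℕ) : ℤ) = (Tz s)^[t] ((n : ℤ) + r)} ≤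
        #{n ∈ range (2 * 2 ^ k) | surv s k (0, s * (r : ℤ)) ((n : ℕ) : ℤ)} := by
      apply card_le_card
      intro n hn
      rw [mem_filter, mem_Icc] at hn
      rw [mem_filter, mem_range]
      refine ⟨by rw [pow_succ] at hk2; omega, ?_⟩
      by_contra hc
      obtain ⟨t, -, ht⟩ := coal hsm k 0 (s * (r : ℤ)) _ hc
      apply hn.2
      refine ⟨t, ?_⟩
      rw [ht]
      congr 1
      have : s * (s * (r : ℤ)) = r := by rw [← mul_assoc, hss, one_mul]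
      rw [this]; ring
    have h3 : ((#{n ∈ range (2 * 2 ^ k) | surv s k (0, s * (r : ℤ)) ((n : ℕ) : ℤ)} : ℕ) : ℝ) =
        ∑ n ∈ range (2 * 2 ^ k), if surv s k (0, s * (r : ℤ)) ((n : ℕ) : ℤ) then (1 : ℝ) else 0 := by
      rw [card_filter]; push_cast; rfl
    rw [← h3]
    exact_mod_cast h2
  refine h1.trans ?_
  rw [hcount]
  have h4 : ∑ n ∈ range (2 ^ k), (if surv s k (0, s * (r : ℤ)) ((n : ℕ) : ℤ) then (1 : ℝ) else 0) =
      2 ^ k * q step (0, 0) k (0, s * (r : ℤ)) := hcs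
  rw [h4]
  have h5 : ((2 ^ k : ℕ) : ℝ) ≤ N := by exact_mod_cast hk1
  push_cast at h5 ⊢
  have h6 : (0 : ℝ) < 2 ^ k := by positivity
  calc 2 * (2 ^ k * q step (0, 0) k (0, s * (r : ℤ))) ≤ 2 * (2 ^ k * (ε / 2)) := by
        apply mul_le_mul_of_nonneg_left _ (by norm_num)
        exact mul_le_mul_of_nonneg_left hqk h6.le
    _ = ε * 2 ^ k := by ring
    _ ≤ ε * N := mul_le_mul_of_nonneg_left h5 hε.le

/-- averaging over one coordinate -/
theorem one_coord {k : ℕ} (R : Fin k → Finset ℕ) (j : Fin k) (hRj : (R j).Nonempty) {c : ℝ}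
    (G : (Fin k → ℕ) → Prop)
    (h : ∀ x ∈ Fintype.piFinset R, (#{p ∈ R j | G (Function.update x j p)} : ℝ) ≤ c * #(R j)) :
    (#{x ∈ Fintype.piFinset R | G x} : ℝ) ≤ c * ∏ l, (#(R l) : ℝ) := by
  have r1 := resample R j (fun x => if G x then (1 : ℝ) else 0)
  have hj0 : (0 : ℝ) < #(R j) := by exact_mod_cast card_pos.2 hRj
  have hcard : ((#(Fintype.piFinset R) : ℕ) : ℝ) = ∏ l, (#(R l) : ℝ) := by
    rw [Fintype.card_piFinset]; push_cast; rfl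
  have e1 : ∑ x ∈ Fintype.piFinset R, (if G x then (1 : ℝ) else 0) = #{x ∈ Fintype.piFinset R | G x} := by
    rw [card_filter]; push_cast; rfl
  have e2 : ∀ x, ∑ p ∈ R j, (if G (Function.update x j p) then (1 : ℝ) else 0) =
      #{p ∈ R j | G (Function.update x j p)} := by
    intro x; rw [card_filter]; push_cast; rfl
  rw [e1] at r1
  have h2 : (#(R j) : ℝ) * #{x ∈ Fintype.piFinset R | G x} ≤ #(R j) * (c * ∏ l, (#(R l) : ℝ)) := by
    rw [← r1]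
    calc ∑ x ∈ Fintype.piFinset R, ∑ p ∈ R j, (if G (Function.update x j p) then (1 : ℝ) else 0)
        ≤ ∑ _x ∈ Fintype.piFinset R, c * #(R j) := sum_le_sum fun x hx => by rw [e2]; exact h x hx
      _ = #(R j) * (c * ∏ l, (#(R l) : ℝ)) := by rw [sum_const, nsmul_eq_mul, hcard]; ring
  exact le_of_mul_le_mul_left h2 hj0

/-- subset sums -/
theorem sums_merge {s : ℤ} (hs : s = 1 ∨ s = -1) {ε : ℝ} (hε : 0 < ε) (hε1 : ε ≤ 1) (k : ℕ) :
    ∃ ϑ : ℝ, 0 < ϑ ∧ ∃ N0 : ℕ, ∀ P : Fin k → ℕ, (∀ i, N0 ≤ P i) →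
    (∀ i j, i < j → (P i : ℝ) ≤ (P j : ℝ) ^ ϑ) → ∀ (J : Finset (Fin k)) (hJ : J.Nonempty),
    (#{x ∈ Fintype.piFinset (fun i => Ioc (P i) (2 * P i)) | ¬ ∃ t : ℕ, (Tz s)^[t] ((x (J.max' hJ) : ℕ) : ℤ) =
      (Tz s)^[t] (∑ i ∈ J, (x i : ℤ))} : ℝ) ≤ ε * ∏ l, (#(Ioc (P l) (2 * P l)) : ℝ) := by
  obtain ⟨ϑ, h0, N0, h⟩ := shift_merge hs (show 0 < ε / 2 by positivity) (by linarith)
  have ev : ∀ᶠ x : ℝ in Filter.atTop, 1 ≤ x ∧ 2 * (k : ℝ) ≤ x ^ (ϑ / 2) :=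
    (Filter.eventually_ge_atTop _).and ((tendsto_rpow_atTop (by positivity)).eventually_ge_atTop _)
  obtain ⟨N1, hN1⟩ := Filter.eventually_atTop.1 (tendsto_natCast_atTop_atTop (R := ℝ) |>.eventually ev)
  refine ⟨ϑ / 2, by positivity, max 1 (max N0 N1), fun P hP hPP J hJ => ?_⟩
  set j := J.max' hJ with hj
  have hPj1 : 1 ≤ P j := le_trans (le_max_left _ _) (hP j)
  have hPj0 : N0 ≤ P j := le_trans (le_trans (le_max_left _ _) (le_max_right _ _)) (hP j)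
  obtain ⟨z1, z2⟩ := hN1 (P j) (le_trans (le_trans (le_max_right _ _) (le_max_right _ _)) (hP j))
  have hcj : #(Ioc (P j) (2 * P j)) = P j := by rw [Nat.card_Ioc]; omega
  obtain ⟨G, hG⟩ : ∃ G : (Fin k → ℕ) → Prop, ∀ x, G x ↔
    ¬ ∃ t : ℕ, (Tz s)^[t] ((x j : ℕ) : ℤ) = (Tz s)^[t] (∑ i ∈ J, (x i : ℤ)) := ⟨_, fun _ => Iff.rfl⟩
  suffices hmain : ∀ x ∈ Fintype.piFinset (fun i => Ioc (P i) (2 * P i)),
      (#{p ∈ Ioc (P j) (2 * P j) | G (Function.update x j p)} : ℝ) ≤ ε * #(Ioc (P j) (2 * P j)) by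
    have := one_coord (fun i => Ioc (P i) (2 * P i)) j (by
      rw [← card_pos, hcj]; omega) G hmain
    refine le_trans (le_of_eq ?_) this
    congr 2
    ext x
    rw [mem_filter, mem_filter, hG]
  intro x hx
  rw [hcj]
  set r : ℕ := ∑ i ∈ J.erase j, x i with hr
  have hjJ : j ∈ J := max'_mem J hJ
  have hsum : ∀ p, ∑ i ∈ J, ((Function.update x j p i : ℕ) : ℤ) = (p : ℤ) + r := by
    intro p
    rw [← add_sum_erase J _ hjJ, Function.update_self, hr]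
    push_cast
    congr 1
    apply sum_congr rfl
    intro i hi
    rw [Function.update_of_ne (mem_erase.1 hi).1]
  have hPj0' : (0 : ℝ) < P j := by linarith
  have hrb : (r : ℝ) ≤ ((2 * P j : ℕ) : ℝ) ^ ϑ := by
    have h1 : (r : ℝ) ≤ ∑ _i ∈ J.erase j, 2 * (P j : ℝ) ^ (ϑ / 2) := by
      rw [hr]
      push_cast
      apply sum_le_sum
      intro i hi
      rw [mem_erase] at hi
      have h2 : i < j := lt_of_le_of_ne (le_max' J i hi.2) hi.1
      have h3 := (mem_Ioc.1 (Fintype.mem_piFinset.1 hx i)).2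
      have h4 : (x i : ℝ) ≤ 2 * P i := by exact_mod_cast h3
      have h5 := hPP i j h2
      linarith
    rw [sum_const, nsmul_eq_mul] at h1
    have h6 : (#(J.erase j) : ℝ) ≤ k := by
      have : #(J.erase j) ≤ k := by
        refine (card_le_univ _).trans ?_
        rw [Fintype.card_fin]
      exact_mod_cast this
    calc (r : ℝ) ≤ #(J.erase j) * (2 * (P j : ℝ) ^ (ϑ / 2)) := h1
      _ ≤ k * (2 * (P j : ℝ) ^ (ϑ / 2)) := mul_le_mul_of_nonneg_right h6 (by positivity)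
      _ = 2 * k * (P j : ℝ) ^ (ϑ / 2) := by ring
      _ ≤ (P j : ℝ) ^ (ϑ / 2) * (P j : ℝ) ^ (ϑ / 2) := mul_le_mul_of_nonneg_right z2 (by positivity)
      _ = (P j : ℝ) ^ ϑ := by rw [← Real.rpow_add hPj0']; congr 1; ring
      _ ≤ ((2 * P j : ℕ) : ℝ) ^ ϑ := by
          apply Real.rpow_le_rpow hPj0'.le _ h0.le
          push_cast; linarith
  have h7 := h (2 * P j) (by omega) r hrb
  have h8 : (#{p ∈ Ioc (P j) (2 * P j) | G (Function.update x j p)} : ℝ) ≤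
      #{n ∈ Icc 1 (2 * P j) | ¬ ∃ t : ℕ, (Tz s)^[t] ((n : ℕ) : ℤ) = (Tz s)^[t] ((n : ℤ) + r)} := by
    have : #{p ∈ Ioc (P j) (2 * P j) | G (Function.update x j p)} ≤
        #{n ∈ Icc 1 (2 * P j) | ¬ ∃ t : ℕ, (Tz s)^[t] ((n : ℕ) : ℤ) = (Tz s)^[t] ((n : ℤ) + r)} := by
      apply card_le_card
      intro p hp
      rw [mem_filter, mem_Ioc] at hp
      rw [mem_filter, mem_Icc]
      refine ⟨⟨by omega, hp.1.2⟩, ?_⟩
      have hp2 := hp.2
      rw [hG, hsum, Function.update_self] at hp2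
      exact hp2
    exact_mod_cast this
  refine h8.trans (h7.trans (le_of_eq ?_))
  push_cast
  ring

end Pool.Agent.X62.BE
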