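import Pool.Agent.X62.BE.Bil2
import Pool.Agent.X62.BE.Shift

/-! Patterns of sums and products. -/

set_option autoImplicit false

namespace Pool.Agent.X62.BE

open Finset Pool.Agent.H320R2.PD Pool.Agent.H499R2.ND Pool.Agent.H499R2.CO Pool.Agent.H376R2.MR
  Pool.Agent.W41.FU Pool.Agent.W41 Pool.Agent.W41.MU Pool.Agent.TH926.BL
open scoped Classical

/-- the bilinear estimate on `(P, 2 P] × (Q, 2 Q]` -/
theorem bil_pair {s : ℤ} (hs : s = 1 ∨ s = -1) {ε : ℝ} (hε : 0 < ε) (hε1 : ε ≤ 1) :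
    ∃ ϑ : ℝ, 0 < ϑ ∧ ∀ α : ℝ, 0 < α → ∃ N0 : ℕ,
    ∀ P Q : ℕ, N0 ≤ Q → (Q : ℝ) ^ α ≤ P → (P : ℝ) ≤ (Q : ℝ) ^ ϑ →
    ∀ S : Set ℤ, Inv 1 S → ∀ δ : ℝ, HD s S δ →
    ∀ u v : ℕ → ℝ, (∀ a, |u a| ≤ 1) → (∀ b, |v b| ≤ 1) →
    |∑ a ∈ Ioc P (2 * P), ∑ b ∈ Ioc Q (2 * Q), u a * v b * (ind s S ((a * b : ℕ) : ℤ) - δ)| ≤ ε * (P * Q) := by
  obtain ⟨ϑ, h0, h1, H⟩ := bil hs (show 0 < ε / 2 by positivity) (by linarith)
  refine ⟨ϑ, h0, fun α hα => ?_⟩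
  obtain ⟨N0, hN0, H⟩ := H (α / 2) (by positivity)
  refine ⟨N0, fun P Q hQ hP1 hP2 S hS δ hδ u v hu hv => ?_⟩
  have hQ2 : (2 : ℝ) ≤ Q := by exact_mod_cast (by omega : 2 ≤ Q)
  have hQp : (0 : ℝ) < Q := by linarith
  have e2 : ((2 * Q : ℕ) : ℝ) = 2 * Q := by push_cast; rfl
  set v' : ℕ → ℝ := fun b => if b ∈ Ioc Q (2 * Q) then v b else 0 with hv'
  have h2 := H (2 * Q) (by omega) S hS δ hδ P (by
      rw [e2]
      have h3 : (2 : ℝ) * Q ≤ (Q : ℝ) ^ (2 : ℝ) := by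
        rw [show (2 : ℝ) = ((2 : ℕ) : ℝ) by norm_num, Real.rpow_natCast]
        push_cast; nlinarith
      calc ((2 : ℝ) * Q) ^ (α / 2) ≤ ((Q : ℝ) ^ (2 : ℝ)) ^ (α / 2) :=
            Real.rpow_le_rpow (by positivity) h3 (by positivity)
        _ = (Q : ℝ) ^ α := by rw [← Real.rpow_mul hQp.le]; congr 1; ring
        _ ≤ P := hP1) (by
      rw [e2]
      exact hP2.trans (Real.rpow_le_rpow hQp.le (by linarith) h0.le)) 1 le_rfl (by
      rw [e2, Nat.cast_one]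
      exact Real.one_le_rpow (by linarith) h0.le) u v' hu (fun b => by
      simp only [hv']
      split_ifs
      · exact hv b
      · simp)
  have e : ∑ a ∈ Ioc P (2 * P), ∑ b ∈ Ioc Q (2 * Q), u a * v b * (ind s S ((a * b : ℕ) : ℤ) - δ) =
      ∑ a ∈ Ioc P (2 * P), ∑ b ∈ Icc 1 (2 * Q), u a * v' b * bal s S δ ((a * (1 * b) : ℕ) : ℤ) := by
    apply sum_congr rfl
    intro a _
    have hsub : Ioc Q (2 * Q) ⊆ Icc 1 (2 * Q) := by
      intro b hb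
      rw [mem_Ioc] at hb
      rw [mem_Icc]; omega
    rw [← sum_subset hsub]
    · apply sum_congr rfl
      intro b hb
      simp only [hv']
      rw [if_pos hb, one_mul]
      rfl
    · intro b _ hb
      simp only [hv']
      rw [if_neg hb]; ring
  rw [e]
  refine h2.trans (le_of_eq ?_)
  rw [e2]; ring

/-- the density in `(P, 2 P]`, uniformly -/
theorem dens_dyadic {s : ℤ} (hs : s = 1 ∨ s = -1) {ε : ℝ} (hε : 0 < ε) : ∃ N0 : ℕ, ∀ S : Set ℤ, Inv 1 S →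
    ∀ δ : ℝ, HD s S δ → ∀ P : ℕ, N0 ≤ P → |∑ a ∈ Ioc P (2 * P), ind s S ((a : ℕ) : ℤ) - δ * P| ≤ ε * P := by
  obtain ⟨N0, h⟩ := unif hs (show 0 < ε / 3 by positivity)
  refine ⟨N0, fun S hS δ hδ P hP => ?_⟩
  have h1 := h S hS δ hδ P hP
  have h2 := h S hS δ hδ (2 * P) (by omega)
  have hc : ∀ N, (cF s S N : ℝ) = ∑ a ∈ Ioc 0 N, ind s S ((a : ℕ) : ℤ) := by
    intro N
    unfold cF
    rw [card_filter]
    push_cast
    have e : Icc 1 N = Ioc 0 N := by ext a; simp only [mem_Icc, mem_Ioc]; omega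
    rw [e]
    apply sum_congr rfl
    intro a _
    unfold ind
    rfl
  have h3 : ∑ a ∈ Ioc P (2 * P), ind s S ((a : ℕ) : ℤ) = cF s S (2 * P) - cF s S P := by
    rw [hc, hc, ← sum_Ioc_consecutive _ (Nat.zero_le P) (show P ≤ 2 * P by omega)]
    ring
  rw [h3]
  push_cast at h2
  rw [abs_le] at h1 h2 ⊢
  constructor <;> linarith [h1.1, h1.2, h2.1, h2.2]

/-- both signs -/
theorem bil_pair' {ε : ℝ} (hε : 0 < ε) (hε1 : ε ≤ 1) :
    ∃ ϑ : ℝ, 0 < ϑ ∧ ∀ α : ℝ, 0 < α → ∃ N0 : ℕ,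
    ∀ s : ℤ, (s = 1 ∨ s = -1) → ∀ P Q : ℕ, N0 ≤ Q → (Q : ℝ) ^ α ≤ P → (P : ℝ) ≤ (Q : ℝ) ^ ϑ →
    ∀ S : Set ℤ, Inv 1 S → ∀ δ : ℝ, HD s S δ →
    ∀ u v : ℕ → ℝ, (∀ a, |u a| ≤ 1) → (∀ b, |v b| ≤ 1) →
    |∑ a ∈ Ioc P (2 * P), ∑ b ∈ Ioc Q (2 * Q), u a * v b * (ind s S ((a * b : ℕ) : ℤ) - δ)| ≤ ε * (P * Q) := by
  obtain ⟨ϑ1, h1, H1⟩ := bil_pair (s := 1) (Or.inl rfl) hε hε1
  obtain ⟨ϑ2, h2, H2⟩ := bil_pair (s := -1) (Or.inr rfl) hε hε1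
  refine ⟨min ϑ1 ϑ2, lt_min h1 h2, fun α hα => ?_⟩
  obtain ⟨N1, H1⟩ := H1 α hα
  obtain ⟨N2, H2⟩ := H2 α hα
  refine ⟨max 1 (max N1 N2), fun s hs P Q hQ hP1 hP2 => ?_⟩
  have hQ1 : 1 ≤ Q := le_trans (le_max_left _ _) hQ
  have hQr : (1 : ℝ) ≤ Q := by exact_mod_cast hQ1
  have hQ2 := le_trans (le_max_right _ _) hQ
  rcases hs with rfl | rfl
  · exact H1 P Q (le_trans (le_max_left _ _) hQ2) hP1
      (hP2.trans (Real.rpow_le_rpow_of_exponent_le hQr (min_le_left _ _)))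
  · exact H2 P Q (le_trans (le_max_right _ _) hQ2) hP1
      (hP2.trans (Real.rpow_le_rpow_of_exponent_le hQr (min_le_right _ _)))

theorem sums_merge' {ε : ℝ} (hε : 0 < ε) (hε1 : ε ≤ 1) (k : ℕ) :
    ∃ ϑ : ℝ, 0 < ϑ ∧ ∃ N0 : ℕ, ∀ P : Fin k → ℕ, (∀ i, N0 ≤ P i) →
    (∀ i j, i < j → (P i : ℝ) ≤ (P j : ℝ) ^ ϑ) → ∀ s : ℤ, (s = 1 ∨ s = -1) →
    ∀ (J : Finset (Fin k)) (hJ : J.Nonempty),
    (#{x ∈ Fintype.piFinset (fun i => Ioc (P i) (2 * P i)) | ¬ ∃ t : ℕ, (Tz s)^[t] ((x (J.max' hJ) : ℕ) : ℤ) =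
      (Tz s)^[t] (∑ i ∈ J, (x i : ℤ))} : ℝ) ≤ ε * ∏ l, (#(Ioc (P l) (2 * P l)) : ℝ) := by
  obtain ⟨ϑ1, h1, N1, H1⟩ := sums_merge (s := 1) (Or.inl rfl) hε hε1 k
  obtain ⟨ϑ2, h2, N2, H2⟩ := sums_merge (s := -1) (Or.inr rfl) hε hε1 k
  refine ⟨min ϑ1 ϑ2, lt_min h1 h2, max 1 (max N1 N2), fun P hP hPP s hs => ?_⟩
  have hP1 : ∀ i, (1 : ℝ) ≤ P i := fun i => by exact_mod_cast le_trans (le_max_left _ _) (hP i)
  have hP2 := fun i => le_trans (le_max_right _ _) (hP i)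
  rcases hs with rfl | rfl
  · exact H1 P (fun i => le_trans (le_max_left _ _) (hP2 i)) (fun i j hij =>
      (hPP i j hij).trans (Real.rpow_le_rpow_of_exponent_le (hP1 j) (min_le_left _ _)))
  · exact H2 P (fun i => le_trans (le_max_right _ _) (hP2 i)) (fun i j hij =>
      (hPP i j hij).trans (Real.rpow_le_rpow_of_exponent_le (hP1 j) (min_le_right _ _)))

theorem dens_dyadic' {ε : ℝ} (hε : 0 < ε) : ∃ N0 : ℕ, ∀ s : ℤ, (s = 1 ∨ s = -1) → ∀ S : Set ℤ, Inv 1 S →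
    ∀ δ : ℝ, HD s S δ → ∀ P : ℕ, N0 ≤ P → |∑ a ∈ Ioc P (2 * P), ind s S ((a : ℕ) : ℤ) - δ * P| ≤ ε * P := by
  obtain ⟨N1, H1⟩ := dens_dyadic (s := 1) (Or.inl rfl) hε
  obtain ⟨N2, H2⟩ := dens_dyadic (s := -1) (Or.inr rfl) hε
  refine ⟨max N1 N2, fun s hs S hS δ hδ P hP => ?_⟩
  rcases hs with rfl | rfl
  · exact H1 S hS δ hδ P (le_trans (le_max_left _ _) hP)
  · exact H2 S hS δ hδ P (le_trans (le_max_right _ _) hP)

theorem ind_same {s : ℤ} (hs : s = 1 ∨ s = -1) {S : Set ℤ} (hS : Inv 1 S) {t : ℕ} {x y : ℤ}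
    (h : (Tz s)^[t] x = (Tz s)^[t] y) : s * x ∈ S ↔ s * y ∈ S := by
  have h1 := (bal_same hs hS (δ := 0) le_rfl zero_le_one).2 t x y h
  unfold bal ind at h1
  constructor
  · intro hx
    by_contra hy
    rw [if_pos hx, if_neg hy] at h1
    norm_num at h1
  · intro hy
    by_contra hx
    rw [if_neg hx, if_pos hy] at h1
    norm_num at h1

/-- PATTERNS OF SUMS AND PRODUCTS. -/
theorem pattern (k : ℕ) {ε : ℝ} (hε : 0 < ε) (hε1 : ε ≤ 1) :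
    ∃ ϑ : ℝ, 0 < ϑ ∧ ∀ α : ℝ, 0 < α → ∃ N0 : ℕ, ∀ P : Fin k → ℕ, (∀ i, N0 ≤ P i) →
    (∀ i j, i < j → (P j : ℝ) ^ α ≤ P i ∧ (P i : ℝ) ≤ (P j : ℝ) ^ ϑ) →
    ∀ (s : Fin k → ℤ) (S : Fin k → Set ℤ) (δ : Fin k → ℝ) (t : Fin k × Fin k → ℤ)
      (U : Fin k × Fin k → Set ℤ) (η : Fin k × Fin k → ℝ),
    (∀ i, s i = 1 ∨ s i = -1) → (∀ e, t e = 1 ∨ t e = -1) → (∀ i, Inv 1 (S i)) → (∀ e, Inv 1 (U e)) →
    (∀ i, HD (s i) (S i) (δ i)) → (∀ e, HD (t e) (U e) (η e)) →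
    |(#{x ∈ Fintype.piFinset (fun i => Ioc (P i) (2 * P i)) |
        (∀ (J : Finset (Fin k)) (hJ : J.Nonempty), s (J.max' hJ) * ∑ i ∈ J, (x i : ℤ) ∈ S (J.max' hJ)) ∧
        ∀ e : Fin k × Fin k, e.1 < e.2 → t e * ((x e.1 * x e.2 : ℕ) : ℤ) ∈ U e} : ℝ) -
      ((∏ i, δ i) * ∏ e ∈ univ.filter (fun e : Fin k × Fin k => e.1 < e.2), η e) * ∏ i, (P i : ℝ)| ≤
      ε * ∏ i, (P i : ℝ) := by
  obtain ⟨M, hM⟩ : ∃ M : ℝ, M = (k : ℝ) ^ 2 + k + 2 ^ k + 1 := ⟨_, rfl⟩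
  have hk0 : (0 : ℝ) ≤ k := Nat.cast_nonneg _
  have h2k : (0 : ℝ) < 2 ^ k := by positivity
  have hM1 : 1 ≤ M := by rw [hM]; nlinarith
  have hM0 : 0 < M := by linarith
  obtain ⟨ε', hε'⟩ : ∃ ε' : ℝ, ε' = ε / M := ⟨_, rfl⟩
  have hε'0 : 0 < ε' := by rw [hε']; positivity
  have hε'1 : ε' ≤ 1 := by
    rw [hε', div_le_one hM0]; linarith
  have hεM : M * ε' = ε := by rw [hε']; field_simp
  obtain ⟨ϑ1, hϑ1, H1⟩ := bil_pair' hε'0 hε'1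
  obtain ⟨ϑ2, hϑ2, N2, H2⟩ := sums_merge' hε'0 hε'1 k
  obtain ⟨N3, H3⟩ := dens_dyadic' hε'0
  refine ⟨min ϑ1 ϑ2, lt_min hϑ1 hϑ2, fun α hα => ?_⟩
  obtain ⟨N1, H1⟩ := H1 α hα
  refine ⟨max 1 (max N1 (max N2 N3)), fun P hP hPP s S δ t U η hs ht hS hU hδ hη => ?_⟩
  have hP1 : ∀ i, 1 ≤ P i := fun i => le_trans (le_max_left _ _) (hP i)
  have hP1r : ∀ i, (1 : ℝ) ≤ P i := fun i => by exact_mod_cast hP1 i
  have hPN1 : ∀ i, N1 ≤ P i := fun i => le_trans (le_trans (le_max_left _ _) (le_max_right _ _)) (hP i)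
  have hPN2 : ∀ i, N2 ≤ P i := fun i =>
    le_trans (le_trans (le_max_left _ _) (le_trans (le_max_right _ _) (le_max_right _ _))) (hP i)
  have hPN3 : ∀ i, N3 ≤ P i := fun i =>
    le_trans (le_trans (le_max_right _ _) (le_trans (le_max_right _ _) (le_max_right _ _))) (hP i)
  set R : Fin k → Finset ℕ := fun i => Ioc (P i) (2 * P i) with hR
  have hRc : ∀ i, #(R i) = P i := fun i => by simp only [hR]; rw [Nat.card_Ioc]; omega
  have hRn : ∀ i, (R i).Nonempty := fun i => by rw [← card_pos, hRc]; exact hP1 i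
  set E : Finset (Fin k × Fin k) := univ.filter (fun e : Fin k × Fin k => e.1 < e.2) with hE
  set Pr : ℝ := ∏ i, (P i : ℝ) with hPr
  have hPrR : ∏ l, (#(R l) : ℝ) = Pr := by
    rw [hPr]; apply prod_congr rfl; intro i _; rw [hRc]
  have hPr0 : 0 ≤ Pr := prod_nonneg fun i _ => by have := hP1r i; linarith
  have hδm : ∀ i, 0 ≤ δ i ∧ δ i ≤ 1 := fun i => HD_mem (hs i) (hδ i)
  have hηm : ∀ e, 0 ≤ η e ∧ η e ≤ 1 := fun e => HD_mem (ht e) (hη e)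
  -- the counting lemma
  have c1 := edges R hRn (ε := ε') (fun e a b => ind (t e) (U e) ((a * b : ℕ) : ℤ))
    (fun e a b => by
      rw [abs_of_nonneg (ind_nonneg _ _ _)]; exact ind_le_one _ _ _) η
    (fun e => by rw [abs_of_nonneg (hηm e).1]; exact (hηm e).2) E (fun e he => (mem_filter.1 he).2)
    (fun e he u v hu hv => by
      have hlt := (mem_filter.1 he).2
      have := H1 (t e) (ht e) (P e.1) (P e.2) (hPN1 _) (hPP _ _ hlt).1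
        ((hPP _ _ hlt).2.trans (Real.rpow_le_rpow_of_exponent_le (hP1r _) (min_le_left _ _)))
        (U e) (hU e) (η e) (hη e) u v hu hv
      rw [hRc, hRc]
      exact this)
    (fun i a => ind (s i) (S i) ((a : ℕ) : ℤ))
    (fun i a => by rw [abs_of_nonneg (ind_nonneg _ _ _)]; exact ind_le_one _ _ _)
  rw [hPrR] at c1
  -- the product of the densities
  have c2 : |∑ x ∈ Fintype.piFinset R, ∏ l, ind (s l) (S l) ((x l : ℕ) : ℤ) - (∏ i, δ i) * Pr| ≤ k * (ε' * Pr) := by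
    rw [← prod_univ_sum R (fun l a => ind (s l) (S l) ((a : ℕ) : ℤ)), hPr]
    apply prod_close (fun i => (P i : ℝ)) (fun i => Nat.cast_nonneg _) _ _ hε'0.le
    · intro i
      rw [abs_of_nonneg (sum_nonneg fun _ _ => ind_nonneg _ _ _)]
      refine (sum_le_sum fun a _ => ind_le_one _ _ _).trans ?_
      rw [sum_const, hRc, nsmul_eq_mul, mul_one]
    · intro i
      rw [abs_of_nonneg (hδm i).1]; exact (hδm i).2
    · intro i
      exact H3 (s i) (hs i) (S i) (hS i) (δ i) (hδ i) (P i) (hPN3 i)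
  -- the patterns without the sums
  set F0 : Finset (Fin k → ℕ) := {x ∈ Fintype.piFinset R | (∀ i, s i * ((x i : ℕ) : ℤ) ∈ S i) ∧
    ∀ e ∈ E, t e * ((x e.1 * x e.2 : ℕ) : ℤ) ∈ U e} with hF0
  have c3 : (#F0 : ℝ) = ∑ x ∈ Fintype.piFinset R, (∏ e ∈ E, ind (t e) (U e) ((x e.1 * x e.2 : ℕ) : ℤ)) *
      ∏ l, ind (s l) (S l) ((x l : ℕ) : ℤ) := by
    rw [hF0, card_filter]
    push_cast
    apply sum_congr rfl
    intro x _
    by_cases h : (∀ i, s i * ((x i : ℕ) : ℤ) ∈ S i) ∧ ∀ e ∈ E, t e * ((x e.1 * x e.2 : ℕ) : ℤ) ∈ U e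
    · rw [if_pos (by exact_mod_cast h), prod_eq_one, prod_eq_one, one_mul]
      · intro i _
        unfold ind
        rw [if_pos (h.1 i)]
      · intro e he
        unfold ind
        rw [if_pos (by exact_mod_cast h.2 e he)]
    · rw [if_neg (by exact_mod_cast h)]
      rw [not_and_or] at h
      rcases h with h | h
      · push Not at h
        obtain ⟨i, hi⟩ := h
        rw [prod_eq_zero (i := i) (s := univ) (mem_univ _) (by unfold ind; rw [if_neg hi]), mul_zero]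
      · push Not at h
        obtain ⟨e, he, hi⟩ := h
        rw [prod_eq_zero (i := e) (s := E) he (by unfold ind; rw [if_neg (by exact_mod_cast hi)]), zero_mul]
  -- the sums
  set F : Finset (Fin k → ℕ) := {x ∈ Fintype.piFinset R |
    (∀ (J : Finset (Fin k)) (hJ : J.Nonempty), s (J.max' hJ) * ∑ i ∈ J, (x i : ℤ) ∈ S (J.max' hJ)) ∧
    ∀ e : Fin k × Fin k, e.1 < e.2 → t e * ((x e.1 * x e.2 : ℕ) : ℤ) ∈ U e} with hF
  have hFF0 : F ⊆ F0 := by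
    intro x hx
    rw [hF, mem_filter] at hx
    rw [hF0, mem_filter]
    refine ⟨hx.1, fun i => ?_, fun e he => hx.2.2 e (mem_filter.1 he).2⟩
    have h1 := hx.2.1 {i} (singleton_nonempty i)
    rw [max'_singleton, sum_singleton] at h1
    exact h1
  set Bad : Finset (Fin k) → Finset (Fin k → ℕ) := fun J => if hJ : J.Nonempty then
    {x ∈ Fintype.piFinset R | ¬ ∃ m : ℕ, (Tz (s (J.max' hJ)))^[m] ((x (J.max' hJ) : ℕ) : ℤ) =
      (Tz (s (J.max' hJ)))^[m] (∑ i ∈ J, (x i : ℤ))} else ∅ with hBad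
  have hBadc : ∀ J, (#(Bad J) : ℝ) ≤ ε' * Pr := by
    intro J
    simp only [hBad]
    split_ifs with hJ
    · have := H2 P hPN2 (fun i j hij =>
        ((hPP i j hij).2.trans (Real.rpow_le_rpow_of_exponent_le (hP1r _) (min_le_right _ _))))
        (s (J.max' hJ)) (hs _) J hJ
      rw [hPrR] at this
      exact this
    · simp only [card_empty, Nat.cast_zero]; positivity
  have hsd : F0 \ F ⊆ univ.biUnion Bad := by
    intro x hx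
    rw [mem_sdiff] at hx
    obtain ⟨hx0, hxF⟩ := hx
    rw [hF0, mem_filter] at hx0
    rw [mem_biUnion]
    by_contra hc
    push Not at hc
    apply hxF
    rw [hF, mem_filter]
    refine ⟨hx0.1, fun J hJ => ?_, fun e he => hx0.2.2 e (mem_filter.2 ⟨mem_univ _, he⟩)⟩
    have h1 := hc J (mem_univ _)
    simp only [hBad] at h1
    rw [dif_pos hJ, mem_filter, not_and, not_not] at h1
    obtain ⟨m, hm⟩ := h1 hx0.1
    exact (ind_same (hs _) (hS _) hm).1 (hx0.2.1 _)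
  have c4 : (#F0 : ℝ) - #F ≤ 2 ^ k * (ε' * Pr) := by
    have h1 : #F0 = #(F0 \ F) + #F := by
      rw [card_sdiff_add_card_eq_card hFF0]
    have h2 : (#(F0 \ F) : ℝ) ≤ ∑ J : Finset (Fin k), (#(Bad J) : ℝ) := by
      have h3 := (card_le_card hsd).trans card_biUnion_le
      exact_mod_cast h3
    have h3 : ∑ J : Finset (Fin k), (#(Bad J) : ℝ) ≤ 2 ^ k * (ε' * Pr) := by
      refine (sum_le_sum fun J _ => hBadc J).trans ?_
      rw [sum_const, card_univ, Fintype.card_finset, Fintype.card_fin, nsmul_eq_mul]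
      push_cast
      rfl
    rw [h1]
    push_cast
    linarith
  have c5 : (#F : ℝ) ≤ #F0 := by exact_mod_cast card_le_card hFF0
  have hEc : (#E : ℝ) ≤ (k : ℝ) ^ 2 := by
    have h1 : #E ≤ k ^ 2 := by
      refine (card_le_univ _).trans ?_
      rw [Fintype.card_prod, Fintype.card_fin, sq]
    exact_mod_cast h1
  rw [← c3] at c1
  have hηP : |∏ e ∈ E, η e| ≤ 1 := abs_prod_le _ _ fun e _ => by
    rw [abs_of_nonneg (hηm e).1]; exact (hηm e).2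
  have c6 : |(∏ e ∈ E, η e) * ∑ x ∈ Fintype.piFinset R, ∏ l, ind (s l) (S l) ((x l : ℕ) : ℤ) -
      ((∏ i, δ i) * ∏ e ∈ E, η e) * Pr| ≤ k * (ε' * Pr) := by
    have e : (∏ e ∈ E, η e) * ∑ x ∈ Fintype.piFinset R, ∏ l, ind (s l) (S l) ((x l : ℕ) : ℤ) -
      ((∏ i, δ i) * ∏ e ∈ E, η e) * Pr = (∏ e ∈ E, η e) *
        (∑ x ∈ Fintype.piFinset R, ∏ l, ind (s l) (S l) ((x l : ℕ) : ℤ) - (∏ i, δ i) * Pr) := by ring
    rw [e, abs_mul]
    exact (mul_le_of_le_one_left (abs_nonneg _) hηP).trans c2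
  have hεPr : 0 ≤ ε' * Pr := by positivity
  have c7 : (#E : ℝ) * (ε' * Pr) ≤ (k : ℝ) ^ 2 * (ε' * Pr) := mul_le_mul_of_nonneg_right hEc hεPr
  have hfin : ε * Pr = (k : ℝ) ^ 2 * (ε' * Pr) + k * (ε' * Pr) + 2 ^ k * (ε' * Pr) + ε' * Pr := by
    rw [← hεM, hM]; ring
  rw [hfin]
  rw [abs_le] at c1 c6 ⊢
  constructor <;> linarith [c1.1, c1.2, c6.1, c6.2]

end Pool.Agent.X62.BE
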