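import Pool.Agent.TH926.BL.Ms

/-! Mean squares over all integers, uniformly in the dilation. -/

set_option autoImplicit false

namespace Pool.Agent.X62.BE

open Finset Pool.Agent.H320R2.PD Pool.Agent.H499R2.ND Pool.Agent.H499R2.CO Pool.Agent.H376R2.MR
  Pool.Agent.W41.FU Pool.Agent.W41 Pool.Agent.W41.MU Pool.Agent.TH926.BL
open scoped Classical

theorem bal_two_pow {s : ℤ} {S : Set ℤ} (hS : Inv 1 S) (δ : ℝ) (e : ℕ) (x : ℤ) :
    bal s S δ (2 ^ e * x) = bal s S δ x := by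
  unfold bal ind
  have h : s * (2 ^ e * x) ∈ S ↔ s * x ∈ S := by
    rw [← hS.two_pow e (s * x)]
    have e1 : s * (2 ^ e * x) = 2 ^ e * (s * x) := by ring
    rw [e1]
  split_ifs with a b b
  · rfl
  · exact absurd (h.1 a) b
  · exact absurd (h.2 b) a
  · rfl

theorem GS_two_pow {s : ℤ} {S : Set ℤ} (hS : Inv 1 S) (δ : ℝ) (w : ℕ → ℝ) (H v e m : ℕ) :
    GS (bal s S δ) w H v (2 ^ e * m) = GS (bal s S δ) w H v m := by
  unfold GS
  apply sum_congr rfl
  intro p _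
  have e1 : ((p * (2 ^ e * m) : ℕ) : ℤ) = 2 ^ e * ((p * m : ℕ) : ℤ) := by push_cast; ring
  rw [e1, bal_two_pow hS]

/-- sums of periodic functions over several periods -/
theorem sum_periods (g : ℕ → ℝ) {a : ℕ} (hg : ∀ n, g (n + a) = g n) (m : ℕ) :
    ∑ b ∈ range (m * a), g b = m * ∑ b ∈ range a, g b := by
  induction m with
  | zero => simp
  | succ m ih =>
    rw [Nat.succ_mul, sum_range_add, ih]
    have h1 : ∀ n : ℕ, ∀ j : ℕ, g (n * a + j) = g j := by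
      intro n
      induction n with
      | zero => intro j; rw [Nat.zero_mul, Nat.zero_add]
      | succ n ihn =>
        intro j
        have : (n + 1) * a + j = (n * a + j) + a := by ring
        rw [this, hg, ihn]
    have : ∑ j ∈ range a, g (m * a + j) = ∑ j ∈ range a, g j := sum_congr rfl fun j _ => h1 m j
    rw [this]
    push_cast
    ring

/-- the multiples of `r` in a window -/
theorem window_mult (r a L : ℕ) (hr : 1 ≤ r) (B : Finset ℕ) (hB : ∀ m ∈ B, r ∣ m) :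
    (#{m ∈ B | a ≤ m ∧ m < a + L} : ℝ) ≤ L / r + 1 := by
  have hr0 : (0 : ℝ) < r := by exact_mod_cast hr
  set lo := (a + r - 1) / r with hlo
  set hi := (a + L + r - 1) / r with hhi
  have h1 : #{m ∈ B | a ≤ m ∧ m < a + L} ≤ #(Ico lo hi) := by
    apply card_le_card_of_injOn (fun m => m / r)
    · intro m hm
      rw [mem_coe, mem_filter] at hm
      obtain ⟨c, hc⟩ := hB m hm.1
      have h3 : m / r = c := by rw [hc]; exact Nat.mul_div_cancel_left c hr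
      simp only [mem_coe, mem_Ico, h3]
      have e1 : c * r = m := by rw [hc, mul_comm]
      constructor
      · rw [hlo]
        have : (a + r - 1) / r < c + 1 := by
          rw [Nat.div_lt_iff_lt_mul hr]
          have : (c + 1) * r = m + r := by rw [add_mul, e1, one_mul]
          omega
        omega
      · have : c + 1 ≤ hi := by
          rw [hhi, Nat.le_div_iff_mul_le hr]
          have : (c + 1) * r = m + r := by rw [add_mul, e1, one_mul]
          omega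
        omega
    · intro m hm m' hm' h
      rw [mem_coe, mem_filter] at hm hm'
      have h3 := Nat.div_mul_cancel (hB m hm.1)
      have h4 := Nat.div_mul_cancel (hB m' hm'.1)
      simp only at h
      rw [← h3, ← h4, h]
  rw [Nat.card_Ico] at h1
  have h2 : ((#{m ∈ B | a ≤ m ∧ m < a + L} : ℕ) : ℝ) ≤ ((hi - lo : ℕ) : ℝ) := by exact_mod_cast h1
  have hle : lo ≤ hi := Nat.div_le_div_right (by omega)
  rw [Nat.cast_sub hle] at h2
  have h3 : (hi : ℝ) * r ≤ a + L + r - 1 := by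
    have h4 : hi * r + 1 ≤ a + L + r := by
      have := Nat.div_mul_le_self (a + L + r - 1) r
      rw [← hhi] at this
      omega
    have h5 : ((hi * r + 1 : ℕ) : ℝ) ≤ ((a + L + r : ℕ) : ℝ) := by exact_mod_cast h4
    push_cast at h5
    linarith
  have h4 : (a : ℝ) ≤ lo * r := by
    have h5 : a ≤ lo * r := by
      have := Nat.lt_div_mul_add (a := a + r - 1) (show 0 < r by omega)
      rw [← hlo] at this
      omega
    exact_mod_cast h5
  refine h2.trans ?_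
  have h6 : ((hi : ℝ) - lo) * r ≤ (L / r + 1) * r := by
    have : ((L : ℝ) / r + 1) * r = L + r := by field_simp
    rw [this]
    nlinarith
  exact le_of_mul_le_mul_right h6 hr0

/-- the classes modulo `2 ^ k` -/
theorem class_mult (r k i : ℕ) (hr : r % 2 = 1) (hk : k ≤ i) (Q : ℤ → Prop)
    (hQ : ∀ x m : ℤ, Q (x + m * 2 ^ k) ↔ Q x) :
    (#{b ∈ Ico (2 ^ i) (2 ^ (i + 1)) | Q ((r * b : ℕ) : ℤ)} : ℝ) =
      2 ^ (i - k) * #{a ∈ range (2 ^ k) | Q ((a : ℕ) : ℤ)} := by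
  set g : ℕ → ℝ := fun b => if Q ((r * b : ℕ) : ℤ) then 1 else 0 with hg
  have hper : ∀ n, g (n + 2 ^ k) = g n := by
    intro n
    simp only [hg]
    have e : ((r * (n + 2 ^ k) : ℕ) : ℤ) = ((r * n : ℕ) : ℤ) + (r : ℤ) * 2 ^ k := by push_cast; ring
    rw [e]
    simp only [hQ]
  have h1 : ∑ b ∈ range (2 ^ (i + 1)), g b = 2 ^ (i + 1 - k) * ∑ b ∈ range (2 ^ k), g b := by
    have := sum_periods g hper (2 ^ (i + 1 - k))
    rw [← pow_add, Nat.sub_add_cancel (by omega)] at this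
    rw [this]; push_cast; rfl
  have h2 : ∑ b ∈ range (2 ^ i), g b = 2 ^ (i - k) * ∑ b ∈ range (2 ^ k), g b := by
    have := sum_periods g hper (2 ^ (i - k))
    rw [← pow_add, Nat.sub_add_cancel hk] at this
    rw [this]; push_cast; rfl
  have h3 : ∑ b ∈ Ico (2 ^ i) (2 ^ (i + 1)), g b = 2 ^ (i - k) * ∑ b ∈ range (2 ^ k), g b := by
    rw [sum_Ico_eq_sub _ (Nat.pow_le_pow_right (by norm_num) (by omega)), h1, h2]
    have : i + 1 - k = (i - k) + 1 := by omega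
    rw [this, pow_succ]
    ring
  have h4 : ∑ b ∈ range (2 ^ k), g b = (#{a ∈ range (2 ^ k) | Q ((a : ℕ) : ℤ)} : ℝ) := by
    have h5 := sum_affine k (fun x : ℤ => if Q x then (1 : ℝ) else 0)
      (fun x m => by simp only [hQ]) (a := (r : ℤ)) (by omega) 0
    rw [card_filter]
    push_cast
    rw [← h5]
    apply sum_congr rfl
    intro b _
    simp only [hg]
    rw [add_zero]
    push_cast
    rfl
  rw [card_filter]
  push_cast
  rw [← h4, ← h3]
  apply sum_congr rfl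
  intro b _
  simp only [hg]
  push_cast
  rfl

/-- dyadic blocks -/
theorem blocks (g : ℕ → ℝ) (i0 n : ℕ) :
    ∑ b ∈ range (2 ^ i0), g b + ∑ i ∈ Ico i0 (i0 + n), ∑ b ∈ Ico (2 ^ i) (2 ^ (i + 1)), g b =
      ∑ b ∈ range (2 ^ (i0 + n)), g b := by
  induction n with
  | zero => simp
  | succ n ih =>
    rw [← add_assoc i0 n 1, sum_Ico_succ_top (by omega), ← add_assoc, ih]
    rw [sum_Ico_eq_sub _ (Nat.pow_le_pow_right (by norm_num) (by omega))]
    ring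

/-- one block -/
theorem block_bound {s : ℤ} {S : Set ℤ} {δ : ℝ} {w : ℕ → ℝ} {H v r i : ℕ} {c X ε : ℝ}
    (hr : 1 ≤ r) (hr2 : r % 2 = 1)
    (hms : ∀ (B : Finset ℕ) (κ : ℝ), B ⊆ Ico (r * 2 ^ i) (2 * (r * 2 ^ i)) → 0 ≤ κ →
      (∀ a L : ℕ, X ^ c ≤ L → (#{m ∈ B | a ≤ m ∧ m < a + L} : ℝ) ≤ 1 * κ * L) →
      (∀ k : ℕ, 1 ≤ k → (2 : ℝ) ^ k ≤ X ^ (1 / 4 : ℝ) → ∀ P : ℤ → Prop,
        (∀ x m : ℤ, P (x + m * 2 ^ k) ↔ P x) →
        (#{m ∈ B | P ((m : ℕ) : ℤ)} : ℝ) ≤ κ * (((r * 2 ^ i : ℕ) : ℝ) / 2 ^ k) * #{a ∈ range (2 ^ k) | P ((a : ℕ) : ℤ)}) →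
      ∑ m ∈ B, GS (bal s S δ) w H v m ^ 2 ≤ ε * κ * (((r * 2 ^ i : ℕ) : ℝ) * mm H v ^ 2))
    (hrX : (r : ℝ) ≤ X ^ c) (hXi : X ^ (1 / 4 : ℝ) < 2 ^ i) :
    ∑ b ∈ Ico (2 ^ i) (2 ^ (i + 1)), GS (bal s S δ) w H v (r * b) ^ 2 ≤ 2 * ε * (2 ^ i * mm H v ^ 2) := by
  have hr0 : (0 : ℝ) < r := by exact_mod_cast hr
  set B : Finset ℕ := (Ico (2 ^ i) (2 ^ (i + 1))).image (fun b => r * b) with hB
  have hinj : Set.InjOn (fun b : ℕ => r * b) (Ico (2 ^ i) (2 ^ (i + 1)) : Finset ℕ) :=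
    fun a _ b _ h => Nat.eq_of_mul_eq_mul_left hr h
  have h1 := hms B (2 / r) ?_ (by positivity) ?_ ?_
  · rw [hB, sum_image hinj] at h1
    refine h1.trans (le_of_eq ?_)
    push_cast
    field_simp
  · intro m hm
    rw [hB, mem_image] at hm
    obtain ⟨b, hb, rfl⟩ := hm
    rw [mem_Ico] at hb ⊢
    constructor
    · exact Nat.mul_le_mul_left _ hb.1
    · calc r * b < r * 2 ^ (i + 1) := Nat.mul_lt_mul_of_pos_left hb.2 hr
        _ = 2 * (r * 2 ^ i) := by ring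
  · intro a L hL
    have h2 := window_mult r a L hr B (fun m hm => by
      rw [hB, mem_image] at hm
      obtain ⟨b, _, rfl⟩ := hm
      exact dvd_mul_right r b)
    refine h2.trans ?_
    have h3 : (r : ℝ) ≤ L := hrX.trans hL
    have h4 : 1 ≤ (L : ℝ) / r := by rw [le_div_iff₀ hr0]; linarith
    have e : 1 * (2 / (r : ℝ)) * L = L / r + L / r := by ring
    rw [e]; linarith
  · intro k hk1 hk2 P hP
    have hki : k ≤ i := by
      have h2 : (2 : ℝ) ^ k < 2 ^ i := lt_of_le_of_lt hk2 hXi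
      exact ((pow_lt_pow_iff_right₀ (by norm_num : (1 : ℝ) < 2)).1 h2).le
    have h2 : (#{m ∈ B | P ((m : ℕ) : ℤ)} : ℝ) = #{b ∈ Ico (2 ^ i) (2 ^ (i + 1)) | P ((r * b : ℕ) : ℤ)} := by
      rw [hB, filter_image, card_image_of_injOn]
      intro a ha b hb h
      exact Nat.eq_of_mul_eq_mul_left hr h
    rw [h2, class_mult r k i hr2 hki P hP]
    apply mul_le_mul_of_nonneg_right _ (Nat.cast_nonneg _)
    have e : (2 : ℝ) ^ i = 2 ^ (i - k) * 2 ^ k := by rw [← pow_add]; congr 1; omega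
    have e2 : 2 / (r : ℝ) * (((r * 2 ^ i : ℕ) : ℝ) / 2 ^ k) = 2 * 2 ^ (i - k) := by
      push_cast
      rw [e]
      field_simp
    rw [e2]
    have : (0 : ℝ) ≤ 2 ^ (i - k) := by positivity
    linarith

/-- MEAN SQUARES, uniform in the dilation `r`. -/
theorem ms_dil {s : ℤ} (hs : s = 1 ∨ s = -1) {ε : ℝ} (hε : 0 < ε) (hε1 : ε ≤ 1) {H : ℕ} (hH : 10 ≤ H) :
    ∃ ϑ : ℝ, 0 < ϑ ∧ ϑ ≤ 1 / 64 ∧ ∀ θ1 : ℝ, 0 < θ1 → ∃ N0 : ℕ, 2 ≤ N0 ∧
    ∀ N : ℕ, N0 ≤ N → ∀ S : Set ℤ, Inv 1 S → ∀ δ : ℝ, HD s S δ →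
    ∀ v : ℕ, θ1 * Real.log N ≤ (v : ℝ) / H → ((v : ℝ) + 1) / H ≤ ϑ * Real.log N →
    ∀ w : ℕ → ℝ, (∀ p ∈ cell H v, |w p| ≤ 1 / p) →
    ∀ r : ℕ, 1 ≤ r → (r : ℝ) ≤ (N : ℝ) ^ ϑ →
    ∑ b ∈ Icc 1 N, GS (bal s S δ) w H v (r * b) ^ 2 ≤ ε * (N * mm H v ^ 2) := by
  obtain ⟨c, hc0, hc1, hms⟩ := ms_B hs (show 0 < ε / 8 by positivity) (by linarith) hH
  obtain ⟨ϑ0, h0, h0c, hms⟩ := hms 1 le_rfl
  refine ⟨ϑ0 / 2, by positivity, by linarith, fun θ1 hθ1 => ?_⟩
  obtain ⟨X0, hX01, hms⟩ := hms (θ1 / 2) (by positivity)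
  have hH0 : (0 : ℝ) < H := by exact_mod_cast (by omega : 0 < H)
  have ev : ∀ᶠ x : ℝ in Filter.atTop, (16 ≤ x ∧ 4 * X0 / ε ≤ x) ∧ (4 / ε) ≤ x ^ (1 / 2 : ℝ) :=
    ((Filter.eventually_ge_atTop _).and (Filter.eventually_ge_atTop _)).and
      ((tendsto_rpow_atTop (by norm_num)).eventually_ge_atTop _)
  obtain ⟨N1, hN1⟩ := Filter.eventually_atTop.1 (tendsto_natCast_atTop_atTop (R := ℝ) |>.eventually ev)
  refine ⟨max 2 N1, le_max_left _ _, fun N hN S hS δ hδ v g1 g2 w hw r hr hrN => ?_⟩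
  obtain ⟨⟨z1, z2⟩, z3⟩ := hN1 N (le_trans (le_max_right _ _) hN)
  have hNp : (0 : ℝ) < N := by linarith
  have hN1' : (1 : ℝ) ≤ N := by linarith
  have hlogN : 0 < Real.log N := Real.log_pos (by linarith)
  have hNh : (N : ℝ) ^ (1 / 2 : ℝ) * (N : ℝ) ^ (1 / 2 : ℝ) = N := by
    rw [← Real.rpow_add hNp]; norm_num
  have hNh0 : 0 < (N : ℝ) ^ (1 / 2 : ℝ) := by positivity
  have hεN : (N : ℝ) ^ (1 / 2 : ℝ) ≤ ε * N / 4 := by
    rw [div_le_iff₀ hε] at z3
    nlinarith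
  have hεN1 : 1 ≤ (N : ℝ) ^ (1 / 2 : ℝ) := Real.one_le_rpow hN1' (by norm_num)
  -- the odd part
  obtain ⟨e, r', hr', rfl⟩ := Nat.exists_eq_two_pow_mul_odd (n := r) (by omega)
  have hr1 : 1 ≤ r' := hr'.pos
  have hr0 : (0 : ℝ) < r' := by exact_mod_cast hr1
  have hrN' : (r' : ℝ) ≤ (N : ℝ) ^ (ϑ0 / 2) := by
    refine le_trans ?_ hrN
    push_cast
    exact le_mul_of_one_le_left hr0.le (one_le_pow₀ (by norm_num))
  have hrr : ∀ b : ℕ, GS (bal s S δ) w H v (2 ^ e * r' * b) = GS (bal s S δ) w H v (r' * b) := by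
    intro b
    rw [mul_assoc, GS_two_pow hS]
  simp only [hrr]
  obtain ⟨d0, d1⟩ := HD_mem hs hδ
  have hfa := (bal_same hs hS d0 d1).1
  have hGb : ∀ m, GS (bal s S δ) w H v m ^ 2 ≤ mm H v ^ 2 := by
    intro m
    have := GS_abs hfa hw m
    rw [← sq_abs]
    exact pow_le_pow_left₀ (abs_nonneg _) this 2
  -- the blocks
  obtain ⟨i0, hi0, hi0'⟩ : ∃ k : ℕ, (2 : ℝ) ^ k ≤ ε * N / 2 ∧ ε * N / 2 < 2 ^ (k + 1) :=
    exists_nat_pow_near (by nlinarith) (by norm_num)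
  set i1 := Nat.log 2 N with hi1
  have hN0 : N ≠ 0 := by rintro rfl; norm_num at z1
  have hi1a : 2 ^ i1 ≤ N := Nat.pow_log_le_self 2 hN0
  have hi1b : N < 2 ^ (i1 + 1) := Nat.lt_pow_succ_log_self (by norm_num) N
  have hi01 : i0 ≤ i1 + 1 := by
    have h1 : (2 : ℝ) ^ i0 < 2 ^ (i1 + 1) := by
      have : (N : ℝ) < ((2 ^ (i1 + 1) : ℕ) : ℝ) := by exact_mod_cast hi1b
      push_cast at this
      have h2 : ε * N / 2 ≤ N := by nlinarith
      linarith
    exact ((pow_lt_pow_iff_right₀ (by norm_num : (1 : ℝ) < 2)).1 h1).le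
  have hsub : Icc 1 N ⊆ range (2 ^ (i0 + (i1 + 1 - i0))) := by
    intro b hb
    rw [mem_Icc] at hb
    rw [mem_range, Nat.add_sub_cancel' hi01]
    omega
  refine (sum_le_sum_of_subset_of_nonneg hsub fun _ _ _ => sq_nonneg _).trans ?_
  rw [← blocks (fun b => GS (bal s S δ) w H v (r' * b) ^ 2) i0 (i1 + 1 - i0), Nat.add_sub_cancel' hi01]
  have hfirst : ∑ b ∈ range (2 ^ i0), GS (bal s S δ) w H v (r' * b) ^ 2 ≤ ε * N / 2 * mm H v ^ 2 := by
    refine (sum_le_sum fun b _ => hGb _).trans ?_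
    rw [sum_const, card_range, nsmul_eq_mul]
    push_cast
    exact mul_le_mul_of_nonneg_right hi0 (sq_nonneg _)
  have hblock : ∀ i ∈ Ico i0 (i1 + 1), ∑ b ∈ Ico (2 ^ i) (2 ^ (i + 1)), GS (bal s S δ) w H v (r' * b) ^ 2 ≤
      2 ^ i * (ε / 4 * mm H v ^ 2) := by
    intro i hi
    rw [mem_Ico] at hi
    have hi2 : (2 : ℝ) ^ i ≤ N := by
      have h1 : 2 ^ i ≤ N := (Nat.pow_le_pow_right (by norm_num) (by omega)).trans hi1a
      exact_mod_cast h1
    have hi3 : ε * N / 4 < (2 : ℝ) ^ i := by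
      have h1 : (2 : ℝ) ^ i0 ≤ 2 ^ i := pow_le_pow_right₀ (by norm_num) hi.1
      rw [pow_succ] at hi0'
      linarith
    set E := Real.exp ((v : ℝ) / H) with hE
    have hE0 : 0 < E := Real.exp_pos _
    have hE1 : 1 ≤ E := Real.one_le_exp (by positivity)
    have hEN : E ≤ (N : ℝ) ^ (ϑ0 / 2) := by
      rw [hE, Real.rpow_def_of_pos hNp]
      apply Real.exp_le_exp.2
      have h1 : (v : ℝ) / H ≤ ((v : ℝ) + 1) / H := div_le_div_of_nonneg_right (by linarith) hH0.le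
      linarith
    have hM1 : (2 : ℝ) ^ i ≤ ((r' * 2 ^ i : ℕ) : ℝ) := by
      push_cast
      exact le_mul_of_one_le_left (by positivity) (by exact_mod_cast hr1)
    obtain ⟨X, hX⟩ : ∃ X : ℝ, X = ((r' * 2 ^ i : ℕ) : ℝ) * E := ⟨_, rfl⟩
    have hM0 : (0 : ℝ) < ((r' * 2 ^ i : ℕ) : ℝ) := by positivity
    have hXp : 0 < X := by rw [hX]; positivity
    have hXl : ε * N / 4 < X := by
      rw [hX]
      calc ε * N / 4 < 2 ^ i := hi3
        _ ≤ _ := hM1
        _ ≤ _ := le_mul_of_one_le_right hM0.le hE1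
    have hXh : (N : ℝ) ^ (1 / 2 : ℝ) ≤ X := hεN.trans hXl.le
    have hXu : X ≤ (N : ℝ) ^ (2 : ℝ) := by
      rw [hX]
      push_cast
      calc (r' : ℝ) * 2 ^ i * E ≤ (N : ℝ) ^ (ϑ0 / 2) * N * (N : ℝ) ^ (ϑ0 / 2) := by
            apply mul_le_mul _ hEN hE0.le (by positivity)
            exact mul_le_mul hrN' hi2 (by positivity) (by positivity)
        _ = (N : ℝ) ^ (1 + ϑ0) := by
            rw [Real.rpow_add hNp, Real.rpow_one]
            have : (N : ℝ) ^ ϑ0 = (N : ℝ) ^ (ϑ0 / 2) * (N : ℝ) ^ (ϑ0 / 2) := by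
              rw [← Real.rpow_add hNp]; congr 1; ring
            rw [this]; ring
        _ ≤ (N : ℝ) ^ (2 : ℝ) := Real.rpow_le_rpow_of_exponent_le hN1' (by linarith)
    have hlogX1 : Real.log N / 2 ≤ Real.log X := by
      have := Real.log_le_log hNh0 hXh
      rw [Real.log_rpow hNp] at this
      linarith
    have hlogX2 : Real.log X ≤ 2 * Real.log N := by
      have := Real.log_le_log hXp hXu
      rw [Real.log_rpow hNp] at this
      linarith
    have h1 := block_bound (s := s) (S := S) (δ := δ) (w := w) (H := H) (v := v) (r := r') (i := i)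
      (c := c) (X := X) (ε := ε / 8) hr1 (Nat.odd_iff.1 hr')
      (hms X (by rw [div_le_iff₀ hε] at z2; nlinarith) S hS δ hδ v (r' * 2 ^ i) (by
          have := mul_le_mul_of_nonneg_left hlogX2 (show 0 ≤ θ1 / 2 by positivity)
          linarith) (by
          have := mul_le_mul_of_nonneg_left hlogX1 h0.le
          linarith) (by rw [← hE, ← hX]; linarith) (by rw [← hE, ← hX]; linarith) w hw)
      (by
        refine hrN'.trans ?_
        have h2 : (N : ℝ) ^ (ϑ0 / 2) = ((N : ℝ) ^ (1 / 2 : ℝ)) ^ ϑ0 := by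
          rw [← Real.rpow_mul hNp.le]; congr 1; ring
        rw [h2]
        refine (Real.rpow_le_rpow hNh0.le hXh h0.le).trans ?_
        exact Real.rpow_le_rpow_of_exponent_le (hεN1.trans hXh) h0c)
      (by
        have h2 : X ^ (1 / 4 : ℝ) ≤ (N : ℝ) ^ (1 / 2 : ℝ) := by
          refine (Real.rpow_le_rpow hXp.le hXu (by norm_num)).trans (le_of_eq ?_)
          rw [← Real.rpow_mul hNp.le]; norm_num
        linarith)
    refine h1.trans (le_of_eq ?_)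
    ring
  have hsec : ∑ i ∈ Ico i0 (i1 + 1), ∑ b ∈ Ico (2 ^ i) (2 ^ (i + 1)), GS (bal s S δ) w H v (r' * b) ^ 2 ≤
      ε * N / 2 * mm H v ^ 2 := by
    refine (sum_le_sum hblock).trans ?_
    rw [← sum_mul]
    have h1 : ∑ i ∈ Ico i0 (i1 + 1), (2 : ℝ) ^ i ≤ 2 * N := by
      have h2 : ∑ i ∈ Ico i0 (i1 + 1), (2 : ℝ) ^ i ≤ ∑ i ∈ range (i1 + 1), (2 : ℝ) ^ i := by
        apply sum_le_sum_of_subset_of_nonneg
        · intro i hi
          rw [mem_Ico] at hi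
          rw [mem_range]; exact hi.2
        · intro _ _ _; positivity
      have h3 : ∑ i ∈ range (i1 + 1), (2 : ℝ) ^ i = 2 ^ (i1 + 1) - 1 := by
        rw [geom_sum_eq (by norm_num)]; norm_num
      have h4 : ((2 ^ i1 : ℕ) : ℝ) ≤ N := by exact_mod_cast hi1a
      push_cast at h4
      rw [h3, pow_succ] at h2
      linarith
    calc _ ≤ 2 * N * (ε / 4 * mm H v ^ 2) := mul_le_mul_of_nonneg_right h1 (by positivity)
      _ = _ := by ring
  calc _ ≤ ε * N / 2 * mm H v ^ 2 + ε * N / 2 * mm H v ^ 2 := add_le_add hfirst hsec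
    _ = _ := by ring

end Pool.Agent.X62.BE
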