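import Pool.Agent.X62.BE.TK
import Pool.Agent.X62.BE.Dil

/-! The bilinear estimate for all integers: mean squares of the sums over `(P, 2 P]`. -/

set_option autoImplicit false

namespace Pool.Agent.X62.BE

open Finset Pool.Agent.H320R2.PD Pool.Agent.H499R2.ND Pool.Agent.H499R2.CO Pool.Agent.H376R2.MR
  Pool.Agent.W41.FU Pool.Agent.W41 Pool.Agent.W41.MU Pool.Agent.TH926.BL
open scoped Classical

/-- the harmonic sum -/
theorem harm_lower {v0 : ℕ} (h0 : 1 ≤ v0) (n : ℕ) :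
    Real.log ((v0 + n : ℕ) / v0) ≤ ∑ v ∈ Ico v0 (v0 + n), 1 / (v : ℝ) := by
  induction n with
  | zero =>
    have : ((v0 + 0 : ℕ) : ℝ) / v0 = 1 := by
      have : (v0 : ℝ) ≠ 0 := by positivity
      rw [add_zero]; field_simp
    rw [this]; simp
  | succ n ih =>
    rw [← add_assoc, sum_Ico_succ_top (by omega)]
    have hv0 : (0 : ℝ) < v0 := by exact_mod_cast h0
    have hvn : (0 : ℝ) < ((v0 + n : ℕ) : ℝ) := by positivity
    have e : ((v0 + n + 1 : ℕ) : ℝ) / v0 = ((v0 + n : ℕ) : ℝ) / v0 * (1 + 1 / ((v0 + n : ℕ) : ℝ)) := by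
      push_cast
      push_cast at hvn
      field_simp
    rw [e, Real.log_mul (by positivity) (by positivity)]
    have h1 : Real.log (1 + 1 / ((v0 + n : ℕ) : ℝ)) ≤ 1 / ((v0 + n : ℕ) : ℝ) := by
      have := Real.log_le_sub_one_of_pos (show 0 < 1 + 1 / ((v0 + n : ℕ) : ℝ) by positivity)
      linarith
    linarith

/-- the primes of several cells -/
noncomputable def TT (H v0 v1 : ℕ) : Finset ℕ := (Ico v0 v1).biUnion (cell H)

theorem TT_disj (H v0 v1 : ℕ) (hH : 1 ≤ H) : ((Ico v0 v1 : Finset ℕ) : Set ℕ).PairwiseDisjoint (cell H) := by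
  intro v _ v' _ hvv
  rw [Function.onFun, disjoint_left]
  intro p hp hp'
  have hH0 : (0 : ℝ) < H := by exact_mod_cast hH
  have h1 := cell_lt hp
  have h2 := cell_lt hp'
  have a1 : (v : ℝ) / H < ((v' : ℝ) + 1) / H := lt_of_le_of_lt h1.2.1 h2.2.2
  have a2 : (v' : ℝ) / H < ((v : ℝ) + 1) / H := lt_of_le_of_lt h2.2.1 h1.2.2
  rw [div_lt_div_iff_of_pos_right hH0] at a1 a2
  have b1 : v < v' + 1 := by exact_mod_cast a1
  have b2 : v' < v + 1 := by exact_mod_cast a2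
  exact hvv (by omega)

theorem TT_sum (H v0 v1 : ℕ) (hH : 1 ≤ H) (g : ℕ → ℝ) :
    ∑ p ∈ TT H v0 v1, g p = ∑ v ∈ Ico v0 v1, ∑ p ∈ cell H v, g p :=
  sum_biUnion (TT_disj H v0 v1 hH)

theorem TT_card (H v0 v1 : ℕ) (hH : 1 ≤ H) : (#(TT H v0 v1) : ℝ) ≤ Real.exp ((v1 : ℝ) / H) := by
  have hH0 : (0 : ℝ) < H := by exact_mod_cast hH
  have h1 : TT H v0 v1 ⊆ Icc 1 ⌊Real.exp ((v1 : ℝ) / H)⌋₊ := by
    intro p hp
    unfold TT at hp
    rw [mem_biUnion] at hp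
    obtain ⟨v, hv, hp⟩ := hp
    rw [mem_Ico] at hv
    have h2 := cell_lt hp
    rw [mem_Icc]
    refine ⟨h2.1.one_lt.le, Nat.le_floor ?_⟩
    have hp0 : (0 : ℝ) < p := by exact_mod_cast h2.1.pos
    rw [← Real.exp_log hp0]
    apply Real.exp_le_exp.2
    have h3 : ((v : ℝ) + 1) ≤ v1 := by exact_mod_cast hv.2
    have h4 : ((v : ℝ) + 1) / H ≤ (v1 : ℝ) / H := div_le_div_of_nonneg_right h3 hH0.le
    linarith [h2.2.2]
  have h2 := card_le_card h1
  rw [Nat.card_Icc, Nat.add_sub_cancel] at h2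
  have h3 : ((#(TT H v0 v1) : ℕ) : ℝ) ≤ (⌊Real.exp ((v1 : ℝ) / H)⌋₊ : ℝ) := by exact_mod_cast h2
  exact h3.trans (Nat.floor_le (Real.exp_pos _).le)

/-- reindexing the multiples of `p` -/
theorem mult_reindex (P A p : ℕ) (hp : 1 ≤ p) (hA : 2 * P ≤ A * p + (p - 1)) (h : ℕ → ℝ) :
    ∑ a ∈ (Ioc P (2 * P)).filter (fun a => p ∣ a), h a =
      ∑ a ∈ Icc 1 A, if p * a ∈ Ioc P (2 * P) then h (p * a) else 0 := by
  rw [← sum_filter]
  symm
  apply sum_nbij' (fun a => p * a) (fun a => a / p)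
  · intro a ha
    rw [mem_filter] at ha ⊢
    exact ⟨ha.2, dvd_mul_right p a⟩
  · intro a ha
    rw [mem_filter] at ha
    obtain ⟨c, rfl⟩ := ha.2
    rw [Nat.mul_div_cancel_left c hp, mem_filter, mem_Icc]
    have h1 := mem_Ioc.1 ha.1
    refine ⟨⟨?_, ?_⟩, ha.1⟩
    · by_contra hc
      have : c = 0 := by omega
      subst this
      omega
    · by_contra hc
      have h2 : A + 1 ≤ c := by omega
      have h3 : p * (A + 1) ≤ p * c := Nat.mul_le_mul_left p h2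
      have h4 : p * (A + 1) = A * p + p := by ring
      omega
  · intro a _
    exact Nat.mul_div_cancel_left a hp
  · intro a ha
    rw [mem_filter] at ha
    exact Nat.mul_div_cancel' ha.2
  · intro a _
    rfl

/-- the decomposition according to the prime factors -/
theorem decomp (f : ℤ → ℝ) (w : ℕ → ℝ) (P m v0 v1 : ℕ) (A : ℕ → ℕ)
    (hA : ∀ v ∈ Ico v0 v1, 2 * (P : ℝ) / Real.exp ((v : ℝ) / (10 : ℕ)) < A v + 1) :
    ∑ a ∈ Ioc P (2 * P), w a * f ((a * m : ℕ) : ℤ) * (#{p ∈ TT 10 v0 v1 | p ∣ a} : ℝ) =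
      ∑ v ∈ Ico v0 v1, ∑ a ∈ Icc 1 (A v), Real.exp (((v : ℝ) + 1) / (10 : ℕ)) *
        GS f (fun p => (if p * a ∈ Ioc P (2 * P) then w (p * a) else 0) / Real.exp (((v : ℝ) + 1) / (10 : ℕ)))
          10 v (a * m) := by
  have h1 : ∑ a ∈ Ioc P (2 * P), w a * f ((a * m : ℕ) : ℤ) * (#{p ∈ TT 10 v0 v1 | p ∣ a} : ℝ) =
      ∑ p ∈ TT 10 v0 v1, ∑ a ∈ (Ioc P (2 * P)).filter (fun a => p ∣ a), w a * f ((a * m : ℕ) : ℤ) := by
    have e : ∀ a, (#{p ∈ TT 10 v0 v1 | p ∣ a} : ℝ) = ∑ p ∈ TT 10 v0 v1, if p ∣ a then (1 : ℝ) else 0 := by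
      intro a; rw [card_filter]; push_cast; rfl
    simp only [e, mul_sum]
    rw [sum_comm]
    apply sum_congr rfl
    intro p _
    rw [sum_filter]
    apply sum_congr rfl
    intro a _
    split_ifs <;> simp
  rw [h1, TT_sum 10 v0 v1 (by norm_num)]
  apply sum_congr rfl
  intro v hv
  have hE := Real.exp_pos (((v : ℝ) + 1) / (10 : ℕ))
  have h2 : ∀ p ∈ cell 10 v, ∑ a ∈ (Ioc P (2 * P)).filter (fun a => p ∣ a), w a * f ((a * m : ℕ) : ℤ) =
      ∑ a ∈ Icc 1 (A v), if p * a ∈ Ioc P (2 * P) then w (p * a) * f ((p * a * m : ℕ) : ℤ) else 0 := by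
    intro p hp
    have h3 := cell_lt hp
    have hp0 : (0 : ℝ) < p := by exact_mod_cast h3.1.pos
    apply mult_reindex P (A v) p h3.1.one_lt.le ?_ (fun a => w a * f ((a * m : ℕ) : ℤ))
    have h4 : Real.exp ((v : ℝ) / (10 : ℕ)) ≤ p := by
      rw [← Real.exp_log hp0]; exact Real.exp_le_exp.2 h3.2.1
    have h5 := hA v hv
    have h6 : 2 * (P : ℝ) < (A v + 1) * p := by
      rw [div_lt_iff₀ (Real.exp_pos _)] at h5
      refine lt_of_lt_of_le h5 ?_
      exact mul_le_mul_of_nonneg_left h4 (by positivity)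
    have h7 : 2 * P < (A v + 1) * p := by exact_mod_cast h6
    have h8 : (A v + 1) * p = A v * p + p := by ring
    have h9 := h3.1.pos
    omega
  rw [sum_congr rfl h2, sum_comm]
  apply sum_congr rfl
  intro a _
  unfold GS
  rw [mul_sum]
  apply sum_congr rfl
  intro p _
  have e2 : ((p * a * m : ℕ) : ℤ) = ((p * (a * m) : ℕ) : ℤ) := by rw [mul_assoc]
  rw [e2]
  beta_reduce
  by_cases h : p * a ∈ Ioc P (2 * P)
  · rw [if_pos h, if_pos h]; field_simp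
  · rw [if_neg h, if_neg h]; simp

end Pool.Agent.X62.BE
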