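import Mathlib

/-! The inequality of Turán and Kubilius for the integers of `(P, 2 P]`. -/

set_option autoImplicit false

namespace Pool.Agent.X62.BE

open Finset

/-- the number of the multiples of `d` in `(P, 2 P]` -/
theorem mult_count (P d : ℕ) (hd : 1 ≤ d) :
    (P : ℝ) / d - 1 ≤ (#{a ∈ Ioc P (2 * P) | d ∣ a} : ℝ) ∧ (#{a ∈ Ioc P (2 * P) | d ∣ a} : ℝ) ≤ P / d + 1 := by
  have h1 : #{a ∈ Ioc P (2 * P) | d ∣ a} + P / d = (2 * P) / d := by
    rw [← Nat.Ioc_filter_dvd_card_eq_div P d, ← Nat.Ioc_filter_dvd_card_eq_div (2 * P) d,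
      ← card_union_of_disjoint]
    · congr 1
      ext a
      simp only [mem_union, mem_filter, mem_Ioc]
      constructor
      · rintro (⟨⟨h1, h2⟩, h3⟩ | ⟨⟨h1, h2⟩, h3⟩)
        · exact ⟨⟨by omega, h2⟩, h3⟩
        · exact ⟨⟨h1, by omega⟩, h3⟩
      · rintro ⟨⟨h1, h2⟩, h3⟩
        by_cases h : a ≤ P
        · right; exact ⟨⟨h1, h⟩, h3⟩
        · left; exact ⟨⟨by omega, h2⟩, h3⟩
    · rw [disjoint_left]
      intro a ha hb
      simp only [mem_filter, mem_Ioc] at ha hb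
      omega
  have hd0 : (0 : ℝ) < d := by exact_mod_cast hd
  have h2 : ((#{a ∈ Ioc P (2 * P) | d ∣ a} : ℕ) : ℝ) + ((P / d : ℕ) : ℝ) = (((2 * P) / d : ℕ) : ℝ) := by
    exact_mod_cast h1
  have h3 : ((P / d : ℕ) : ℝ) ≤ (P : ℝ) / d := Nat.cast_div_le
  have h4 : (((2 * P) / d : ℕ) : ℝ) ≤ ((2 * P : ℕ) : ℝ) / d := Nat.cast_div_le
  have h5 : (P : ℝ) / d < ((P / d : ℕ) : ℝ) + 1 := by
    rw [div_lt_iff₀ hd0]
    have := Nat.lt_div_mul_add (a := P) hd
    have h6 : (P : ℕ) < (P / d + 1) * d := by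
      calc P < P / d * d + d := this
        _ = (P / d + 1) * d := by ring
    exact_mod_cast h6
  have h7 : ((2 * P : ℕ) : ℝ) / d < (((2 * P) / d : ℕ) : ℝ) + 1 := by
    rw [div_lt_iff₀ hd0]
    have := Nat.lt_div_mul_add (a := 2 * P) hd
    have h6 : (2 * P : ℕ) < ((2 * P) / d + 1) * d := by
      calc 2 * P < (2 * P) / d * d + d := this
        _ = ((2 * P) / d + 1) * d := by ring
    exact_mod_cast h6
  have h8 : ((2 * P : ℕ) : ℝ) / d = P / d + P / d := by push_cast; ring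
  constructor <;> linarith

/-- the inequality of Turán and Kubilius -/
theorem tk (P : ℕ) (T : Finset ℕ) (hT : ∀ p ∈ T, p.Prime) (hR : 4 * (#T) ^ 2 ≤ P) :
    ∑ a ∈ Ioc P (2 * P), ((#{p ∈ T | p ∣ a} : ℝ) - ∑ p ∈ T, 1 / (p : ℝ)) ^ 2
      ≤ P * (∑ p ∈ T, 1 / (p : ℝ) + 1) := by
  classical
  set L : ℝ := ∑ p ∈ T, 1 / (p : ℝ) with hL
  set R : ℕ := #T with hRd
  have hp1 : ∀ p ∈ T, 1 ≤ p := fun p hp => (hT p hp).one_lt.le
  have hL0 : 0 ≤ L := sum_nonneg fun p _ => by positivity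
  have hLR : L ≤ R := by
    have : L ≤ ∑ _p ∈ T, (1 : ℝ) := sum_le_sum fun p hp => by
      rw [div_le_one (by exact_mod_cast (hT p hp).pos)]
      exact_mod_cast hp1 p hp
    simpa using this
  have hom : ∀ a : ℕ, (#{p ∈ T | p ∣ a} : ℝ) = ∑ p ∈ T, if p ∣ a then (1 : ℝ) else 0 := by
    intro a
    rw [card_filter]; push_cast; rfl
  -- first moment
  have m1 : (P : ℝ) * L - R ≤ ∑ a ∈ Ioc P (2 * P), (#{p ∈ T | p ∣ a} : ℝ) := by
    have e : ∑ a ∈ Ioc P (2 * P), (#{p ∈ T | p ∣ a} : ℝ) = ∑ p ∈ T, (#{a ∈ Ioc P (2 * P) | p ∣ a} : ℝ) := by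
      simp only [hom]
      rw [sum_comm]
      apply sum_congr rfl
      intro p _
      rw [card_filter]; push_cast; rfl
    rw [e]
    have h1 : ∑ p ∈ T, ((P : ℝ) / p - 1) ≤ ∑ p ∈ T, (#{a ∈ Ioc P (2 * P) | p ∣ a} : ℝ) :=
      sum_le_sum fun p hp => (mult_count P p (hp1 p hp)).1
    refine le_trans (le_of_eq ?_) h1
    rw [sum_sub_distrib, sum_const, nsmul_eq_mul, mul_one, hL, mul_sum]
    congr 1
    apply sum_congr rfl
    intro p _
    ring
  -- second moment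
  have m2 : ∑ a ∈ Ioc P (2 * P), (#{p ∈ T | p ∣ a} : ℝ) ^ 2 ≤ P * L ^ 2 + P * L + (R : ℝ) ^ 2 + R := by
    have e : ∑ a ∈ Ioc P (2 * P), (#{p ∈ T | p ∣ a} : ℝ) ^ 2 =
        ∑ p ∈ T, ∑ q ∈ T, (#{a ∈ Ioc P (2 * P) | p ∣ a ∧ q ∣ a} : ℝ) := by
      simp only [hom, sq, sum_mul_sum]
      rw [sum_comm]
      apply sum_congr rfl
      intro p _
      rw [sum_comm]
      apply sum_congr rfl
      intro q _
      rw [card_filter]
      push_cast
      apply sum_congr rfl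
      intro a _
      by_cases h1 : p ∣ a <;> by_cases h2 : q ∣ a <;> simp [h1, h2]
    rw [e]
    have h1 : ∀ p ∈ T, ∀ q ∈ T, (#{a ∈ Ioc P (2 * P) | p ∣ a ∧ q ∣ a} : ℝ) ≤
        (P * (1 / (p : ℝ)) * (1 / (q : ℝ)) + 1) + if p = q then P * (1 / (p : ℝ)) + 1 else 0 := by
      intro p hp q hq
      have hp0 : (0 : ℝ) < p := by exact_mod_cast (hT p hp).pos
      have hq0 : (0 : ℝ) < q := by exact_mod_cast (hT q hq).pos
      split_ifs with h
      · subst h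
        simp only [and_self]
        have := (mult_count P p (hp1 p hp)).2
        have h2 : 0 ≤ (P : ℝ) * (1 / (p : ℝ)) * (1 / (p : ℝ)) + 1 := by positivity
        have e3 : (P : ℝ) * (1 / (p : ℝ)) = P / p := by ring
        linarith
      · have hco : Nat.Coprime p q := (Nat.coprime_primes (hT p hp) (hT q hq)).2 h
        have e2 : {a ∈ Ioc P (2 * P) | p ∣ a ∧ q ∣ a} = {a ∈ Ioc P (2 * P) | p * q ∣ a} := by
          apply filter_congr
          intro a _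
          constructor
          · rintro ⟨h1, h2⟩; exact hco.mul_dvd_of_dvd_of_dvd h1 h2
          · intro h1; exact ⟨(dvd_mul_right p q).trans h1, (dvd_mul_left q p).trans h1⟩
        rw [e2]
        have := (mult_count P (p * q) (Nat.mul_pos (hp1 p hp) (hp1 q hq))).2
        refine this.trans (le_of_eq ?_)
        push_cast
        field_simp
        ring
    refine (sum_le_sum fun p hp => sum_le_sum fun q hq => h1 p hp q hq).trans ?_
    have e4 : ∀ p ∈ T, ∑ q ∈ T, ((P * (1 / (p : ℝ)) * (1 / (q : ℝ)) + 1) + if p = q then P * (1 / (p : ℝ)) + 1 else 0)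
        = P * (1 / (p : ℝ)) * L + R + (P * (1 / (p : ℝ)) + 1) := by
      intro p hp
      rw [sum_add_distrib, sum_add_distrib, ← mul_sum, ← hL, sum_const, nsmul_eq_mul, mul_one, sum_ite_eq,
        if_pos hp]
    rw [sum_congr rfl e4, sum_add_distrib, sum_add_distrib, sum_add_distrib, ← sum_mul, ← mul_sum, ← hL,
      sum_const, sum_const, nsmul_eq_mul, nsmul_eq_mul, mul_one]
    apply le_of_eq
    rw [← hRd]; ring
  have e : ∑ a ∈ Ioc P (2 * P), ((#{p ∈ T | p ∣ a} : ℝ) - L) ^ 2 =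
      ∑ a ∈ Ioc P (2 * P), (#{p ∈ T | p ∣ a} : ℝ) ^ 2 - 2 * L * ∑ a ∈ Ioc P (2 * P), (#{p ∈ T | p ∣ a} : ℝ)
        + P * L ^ 2 := by
    rw [mul_sum, ← sum_sub_distrib]
    have : (P : ℝ) * L ^ 2 = ∑ _a ∈ Ioc P (2 * P), L ^ 2 := by
      rw [sum_const, Nat.card_Ioc, nsmul_eq_mul]
      congr 2
      omega
    rw [this, ← sum_add_distrib]
    apply sum_congr rfl
    intro a _
    ring
  rw [e]
  have hR0 : (0 : ℝ) ≤ R := Nat.cast_nonneg _
  have hR2 : (R : ℝ) ≤ (R : ℝ) ^ 2 := by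
    have : R ≤ R ^ 2 := Nat.le_self_pow (by norm_num) R
    exact_mod_cast this
  have hR4 : 4 * (R : ℝ) ^ 2 ≤ P := by exact_mod_cast hR
  have h5 : 2 * L * (P * L - R) ≤ 2 * L * ∑ a ∈ Ioc P (2 * P), (#{p ∈ T | p ∣ a} : ℝ) :=
    mul_le_mul_of_nonneg_left m1 (by positivity)
  have h6 : L * R ≤ (R : ℝ) ^ 2 := by rw [sq]; exact mul_le_mul_of_nonneg_right hLR hR0
  nlinarith

end Pool.Agent.X62.BE
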